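import Pool.Agent.K4H83.LP.Main

/-! # Units of the upper bound, association of cluster variables -/

namespace Pool.Agent.K4H83.LP

open MvPolynomial

universe u v

section General

variable {R : Type u} {K : Type v} [CommRing R] [Field K] [Algebra R K] {n : ℕ}

lemma PrimeIn.dvd_prod_pow {U : Subalgebra R K} {π : K} (hπ : PrimeIn U π) {z : Fin n → K}
    (hz : ∀ l, z l ∈ U) (e : Fin n → ℕ) {κ : K} (hκ : κ ∈ U)
    (h : DvdIn U π ((∏ l, z l ^ e l) * κ)) :
    (∃ l, e l ≠ 0 ∧ DvdIn U π (z l)) ∨ DvdIn U π κ := by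
  have hpow : ∀ (l : Fin n) (m : ℕ), DvdIn U π (z l ^ m) → m ≠ 0 ∧ DvdIn U π (z l) := by
    intro l m
    induction m with
    | zero =>
      intro h
      rw [pow_zero] at h
      exact absurd h hπ.not_dvd_one
    | succ m ih =>
      intro h
      rw [pow_succ] at h
      refine ⟨Nat.succ_ne_zero m, ?_⟩
      rcases hπ.dvd_or _ (pow_mem (hz l) m) _ (hz l) h with h1 | h1
      · exact (ih h1).2
      · exact h1
  have key : ∀ s : Finset (Fin n), DvdIn U π ((∏ l ∈ s, z l ^ e l) * κ) →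
      (∃ l, e l ≠ 0 ∧ DvdIn U π (z l)) ∨ DvdIn U π κ := by
    intro s
    induction s using Finset.induction_on with
    | empty => intro h; right; simpa using h
    | insert l s hl ih =>
      intro h
      rw [Finset.prod_insert hl, mul_assoc] at h
      rcases hπ.dvd_or _ (pow_mem (hz l) _) _
        (U.mul_mem (Subalgebra.prod_mem _ fun l _ => pow_mem (hz l) _) hκ) h with h1 | h1
      · exact Or.inl ⟨l, hpow l _ h1⟩
      · exact ih h1
  exact key _ h

lemma prod_zpow_mul {x : Fin n → K} (hx : ∀ k, x k ≠ 0) (a b : Fin n → ℤ) :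
    (∏ k, x k ^ a k) * (∏ k, x k ^ b k) = ∏ k, x k ^ (a k + b k) := by
  rw [← Finset.prod_mul_distrib]
  exact Finset.prod_congr rfl fun k _ => (zpow_add₀ (hx k) _ _).symm

lemma PrimeIn.dvd_of_associate {U : Subalgebra R K} {π z : K} (hπ : PrimeIn U π)
    (hz : PrimeIn U z) (h : DvdIn U π z) : DvdIn U z π := by
  obtain ⟨g, hg, e⟩ := h
  rcases hz.dvd_or _ hπ.mem _ hg (e ▸ dvdIn_refl U z) with h1 | ⟨g', hg', e'⟩
  · exact h1
  · exfalso
    apply hπ.not_dvd_one
    refine ⟨g', hg', ?_⟩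
    apply mul_left_cancel₀ hz.ne_zero
    rw [mul_one]
    calc z = π * g := e
      _ = π * (z * g') := by rw [e']
      _ = z * (π * g') := by ring

end General

namespace Seed

variable {R : Type u} {K : Type v} [CommRing R] [IsDomain R] [UniqueFactorizationMonoid R]
  [Field K] [Algebra R K] {n : ℕ} (s : Seed R K n)

/-- If `f = x^m κ` in the upper bound with `m_j < 0`, then `x_j` divides `κ`. -/
lemma dvdIn_of_neg {f κ : K} (hf : f ∈ s.upper) (hκ : κ ∈ s.upper) {m : Fin n → ℤ}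
    (h : f = (∏ k, s.x k ^ m k) * κ) {j : Fin n} (hj : m j < 0) :
    DvdIn s.upper (s.x j) κ := by
  have hπ := s.primeIn_upper j
  have h1 : f * ∏ k, s.x k ^ (-m k).toNat = (∏ k, s.x k ^ (m k).toNat) * κ := by
    rw [h, mul_right_comm, ← Finset.prod_mul_distrib]
    congr 1
    refine Finset.prod_congr rfl fun k _ => ?_
    rw [← zpow_natCast, ← zpow_natCast, ← zpow_add₀ (s.x_ne k)]
    congr 1
    omega
  have h2 : DvdIn s.upper (s.x j) ((∏ k, s.x k ^ (m k).toNat) * κ) := by
    rw [← h1]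
    refine DvdIn.mul_left ?_ hf
    rw [← Finset.mul_prod_erase _ _ (Finset.mem_univ j)]
    have h3 : (-m j).toNat ≠ 0 := by omega
    refine DvdIn.mul_right ?_ (Subalgebra.prod_mem _ fun k _ => pow_mem (s.x_mem_upper k) _)
    obtain ⟨t, ht⟩ := Nat.exists_eq_succ_of_ne_zero h3
    rw [ht, pow_succ]
    exact (dvdIn_refl _ _).mul_left (pow_mem (s.x_mem_upper j) _)
  rcases hπ.dvd_prod_pow s.x_mem_upper _ hκ h2 with ⟨l, hl, hd⟩ | h3
  · exfalso
    have hlj : l ≠ j := by
      rintro rfl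
      apply hl
      omega
    exact s.not_dvdIn_upper_x hlj hd
  · exact h3

/-- The units of the upper bound are the units of `R`. -/
lemma unit_upper {g g' : K} (hg : g ∈ s.upper) (hg' : g' ∈ s.upper) (h : g * g' = 1) :
    ∃ w : Rˣ, g = algebraMap R K (w : R) := by
  have hg0 : g ≠ 0 := left_ne_zero_of_mul_eq_one h
  have hg0' : g' ≠ 0 := right_ne_zero_of_mul_eq_one h
  obtain ⟨m, p, hp, e⟩ := exists_numer s.indep (mem_upper.1 hg).1 hg0
  obtain ⟨m', p', hp', e'⟩ := exists_numer s.indep (mem_upper.1 hg').1 hg0'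
  have h1 : (∏ k, s.x k ^ (m k + m' k)) * aeval s.x (p * p')
      = (∏ k, s.x k ^ ((0 : Fin n → ℤ) k)) * aeval s.x (1 : MvPolynomial (Fin n) R) := by
    rw [← prod_zpow_mul s.x_ne, map_mul]
    simp only [Pi.zero_apply, zpow_zero, Finset.prod_const_one, map_one, mul_one]
    rw [← h, e, e']; ring
  have hX1 : ∀ j, ¬ (X j : MvPolynomial (Fin n) R) ∣ 1 := fun j hj =>
    (X_prime (i := j)).not_isUnit (isUnit_of_dvd_one hj)
  obtain ⟨h2, h3⟩ := numer_unique s.indep (fun j hj => by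
    rcases (X_prime (i := j)).dvd_or_dvd hj with h | h
    · exact hp j h
    · exact hp' j h) hX1 h1
  have hu : IsUnit p := IsUnit.of_mul_eq_one _ h3
  obtain ⟨r, hr, hpr⟩ := isUnit_iff_eq_C_of_isReduced.1 hu
  obtain ⟨w, rfl⟩ := hr
  have hu' : IsUnit p' := IsUnit.of_mul_eq_one _ ((mul_comm p' p).trans h3)
  obtain ⟨r', hr', hpr'⟩ := isUnit_iff_eq_C_of_isReduced.1 hu'
  obtain ⟨w', rfl⟩ := hr'
  have hcon : ∀ (w : Rˣ) (j : Fin n), ¬ DvdIn s.upper (s.x j) (algebraMap R K (w : R)) := by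
    intro w j hd
    apply (s.primeIn_upper j).not_dvd_one
    have := hd.mul_right (c := algebraMap R K ((w⁻¹ : Rˣ) : R)) (Subalgebra.algebraMap_mem _ _)
    rwa [← map_mul, Units.mul_inv, map_one] at this
  have hm : m = 0 := by
    funext j
    by_contra hj
    rcases lt_or_gt_of_ne hj with hj | hj
    · exact hcon w j (s.dvdIn_of_neg hg (Subalgebra.algebraMap_mem _ _)
        (m := m) (by rw [e, hpr, aeval_C]) hj)
    · have hj' : m' j < 0 := by
        have := congrFun h2 j
        simp only [Pi.zero_apply] at this hj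
        omega
      exact hcon w' j (s.dvdIn_of_neg hg' (Subalgebra.algebraMap_mem _ _)
        (m := m') (by rw [e', hpr', aeval_C]) hj')
  refine ⟨w, ?_⟩
  rw [e, hpr, hm, aeval_C]
  simp

/-- A prime element dividing an initial cluster variable is a unit multiple of it. -/
lemma eq_unit_mul {z : K} (hz : PrimeIn s.upper z) {j : Fin n}
    (h : DvdIn s.upper z (s.x j)) : ∃ w : Rˣ, z = algebraMap R K (w : R) * s.x j := by
  obtain ⟨g, hg, e⟩ := PrimeIn.dvd_of_associate hz (s.primeIn_upper j) h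
  obtain ⟨g', hg', e'⟩ := h
  have h1 : g * g' = 1 := by
    apply mul_left_cancel₀ (s.x_ne j)
    rw [mul_one, ← mul_assoc, ← e, ← e']
  obtain ⟨w, hw⟩ := s.unit_upper hg hg' h1
  exact ⟨w, by rw [e, hw, mul_comm]⟩

/-- Two prime elements of the upper bound with associated numerators, neither of which is a unit
multiple of a cluster variable of the seed, are unit multiples of each other. -/
lemma unit_of_numer {z z' : K} (hz : PrimeIn s.upper z) (hz' : PrimeIn s.upper z')
    (hn : ∀ j, ¬ ∃ w : Rˣ, z = algebraMap R K (w : R) * s.x j)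
    (hn' : ∀ j, ¬ ∃ w : Rˣ, z' = algebraMap R K (w : R) * s.x j)
    {m m' : Fin n → ℤ} {p p' : MvPolynomial (Fin n) R}
    (e : z = (∏ k, s.x k ^ m k) * aeval s.x p) (e' : z' = (∏ k, s.x k ^ m' k) * aeval s.x p')
    (h : Associated p p') : ∃ w : Rˣ, z' = algebraMap R K (w : R) * z := by
  obtain ⟨v, hv⟩ := h
  obtain ⟨r, hr, hvr⟩ := isUnit_iff_eq_C_of_isReduced.1 v.isUnit
  obtain ⟨w, rfl⟩ := hr
  rw [hvr] at hv
  have hx0 : ∀ a : Fin n → ℤ, (∏ k, s.x k ^ a k) ≠ 0 := fun a =>
    Finset.prod_ne_zero_iff.2 fun k _ => zpow_ne_zero _ (s.x_ne k)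
  have h1 : z' = (∏ k, s.x k ^ (m' k - m k)) * (algebraMap R K (w : R) * z) := by
    have : ∏ k, s.x k ^ m' k = (∏ k, s.x k ^ (m' k - m k)) * ∏ k, s.x k ^ m k := by
      rw [prod_zpow_mul s.x_ne (fun k => m' k - m k) m]
      exact Finset.prod_congr rfl fun k _ => by rw [sub_add_cancel]
    rw [e', e, ← hv, map_mul, aeval_C, this]; ring
  have h2 : z = (∏ k, s.x k ^ (m k - m' k)) * (algebraMap R K ((w⁻¹ : Rˣ) : R) * z') := by
    have h3 : (∏ k, s.x k ^ (m k - m' k)) * (∏ k, s.x k ^ (m' k - m k)) = 1 := by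
      rw [prod_zpow_mul s.x_ne (fun k => m k - m' k) (fun k => m' k - m k)]
      exact Finset.prod_eq_one fun k _ => by rw [sub_add_sub_cancel, sub_self, zpow_zero]
    have h4 : algebraMap R K ((w⁻¹ : Rˣ) : R) * algebraMap R K (w : R) = 1 := by
      rw [← map_mul, Units.inv_mul, map_one]
    rw [h1]
    calc z = ((∏ k, s.x k ^ (m k - m' k)) * (∏ k, s.x k ^ (m' k - m k))) *
          (algebraMap R K ((w⁻¹ : Rˣ) : R) * algebraMap R K (w : R)) * z := by
            rw [h3, h4, one_mul, one_mul]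
      _ = _ := by ring
  have hunit : ∀ (w : Rˣ) (y : K) (j : Fin n), DvdIn s.upper (s.x j) (algebraMap R K (w : R) * y) →
      DvdIn s.upper (s.x j) y := by
    intro w y j hd
    have := hd.mul_left (c := algebraMap R K ((w⁻¹ : Rˣ) : R)) (Subalgebra.algebraMap_mem _ _)
    rwa [← mul_assoc, ← map_mul, Units.inv_mul, map_one, one_mul] at this
  have hd : ∀ k, m' k - m k = 0 := by
    intro j
    by_contra hj
    rcases lt_or_gt_of_ne hj with hj | hj
    · have h3 := s.dvdIn_of_neg hz'.mem (Subalgebra.mul_mem _ (Subalgebra.algebraMap_mem _ _)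
        hz.mem) h1 hj
      exact hn j (s.eq_unit_mul hz
        (PrimeIn.dvd_of_associate (s.primeIn_upper j) hz (hunit w z j h3)))
    · have h3 := s.dvdIn_of_neg hz.mem (Subalgebra.mul_mem _ (Subalgebra.algebraMap_mem _ _)
        hz'.mem) h2 (j := j) (by omega)
      exact hn' j (s.eq_unit_mul hz'
        (PrimeIn.dvd_of_associate (s.primeIn_upper j) hz' (hunit _ z' j h3)))
  refine ⟨w, ?_⟩
  rw [h1]
  simp [hd]

end Seed

end Pool.Agent.K4H83.LP
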