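import Mathlib

/-! # Intersection of two Laurent polynomial rings in one variable -/

namespace Pool.Agent.K4H83.LP

universe u v

open Polynomial

lemma core_intersection {A : Type u} {K : Type v} [CommRing A] [IsDomain A] [Field K] [Algebra A K]
    {z : K} (hz : Transcendental A z) (hz0 : z ≠ 0) {π : A} (hπ : π ≠ 0) (N : ℕ) :
    ∀ (g : K) (P : A[X]) (M : ℕ) (Q : A[X]), g * z ^ N = aeval z P →
      g * (algebraMap A K π / z) ^ M = aeval (algebraMap A K π / z) Q →
      ∃ P₁ Q₁ : A[X], g = aeval z P₁ + aeval (algebraMap A K π / z) Q₁ := by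
  have hinj := transcendental_iff_injective.1 hz
  set w : K := algebraMap A K π / z with hw
  have hwz : w * z = algebraMap A K π := div_mul_cancel₀ _ hz0
  induction N with
  | zero =>
    intro g P M Q h1 _
    exact ⟨P, 0, by simpa using h1⟩
  | succ N ih =>
    intro g P M Q h1 h2
    obtain ⟨D, hD⟩ : ∃ D, Q.natDegree ≤ D ∧ M + N + 1 ≤ D :=
      ⟨max Q.natDegree (M + N + 1), le_max_left _ _, le_max_right _ _⟩
    let Qh : A[X] := ∑ s ∈ Finset.range (D + 1), Polynomial.C (Q.coeff s * π ^ s) * X ^ (D - s)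
    have hQh : aeval z Qh = z ^ D * aeval w Q := by
      rw [aeval_eq_sum_range' (Nat.lt_succ_of_le hD.1) w, Finset.mul_sum, map_sum]
      refine Finset.sum_congr rfl fun s hs => ?_
      have hs' : s ≤ D := Nat.lt_succ_iff.1 (Finset.mem_range.1 hs)
      rw [map_mul, aeval_C, map_pow, aeval_X, Algebra.smul_def, map_mul, map_pow, ← hwz]
      have : z ^ D = z ^ s * z ^ (D - s) := by rw [← pow_add, Nat.add_sub_cancel' hs']
      rw [this]; ring
    have hpoly : Polynomial.C (π ^ M) * X ^ D * P = X ^ (M + N + 1) * Qh := by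
      apply hinj
      rw [map_mul, map_mul, map_mul, aeval_C, map_pow, map_pow, aeval_X, hQh, ← h1, ← h2, map_pow,
        ← hwz, aeval_X]
      ring
    have hco : π ^ M * P.coeff 0 = Q.coeff (M + N + 1) * π ^ (M + N + 1) := by
      have h3 := congrArg (fun T : A[X] => T.coeff D) hpoly
      have e1 : (Polynomial.C (π ^ M) * X ^ D * P).coeff D = π ^ M * P.coeff 0 := by
        rw [mul_assoc, coeff_C_mul, mul_comm (X ^ D) P]
        have := coeff_mul_X_pow P D 0
        rw [Nat.zero_add] at this
        rw [this]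
      have e2 : (X ^ (M + N + 1) * Qh).coeff D = Qh.coeff (D - (M + N + 1)) := by
        rw [mul_comm (X ^ (M + N + 1)) Qh]
        have := coeff_mul_X_pow Qh (M + N + 1) (D - (M + N + 1))
        rw [Nat.sub_add_cancel hD.2] at this
        exact this
      have e3 : Qh.coeff (D - (M + N + 1)) = Q.coeff (M + N + 1) * π ^ (M + N + 1) := by
        rw [finsetSum_coeff, Finset.sum_eq_single (M + N + 1)]
        · rw [coeff_C_mul_X_pow, if_pos rfl]
        · intro s hs hne
          have hs' : s ≤ D := Nat.lt_succ_iff.1 (Finset.mem_range.1 hs)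
          rw [coeff_C_mul_X_pow, if_neg]
          have := hD.2
          omega
        · intro h
          exact absurd (Finset.mem_range.2 (Nat.lt_succ_of_le hD.2)) h
      rw [e1, e2, e3] at h3
      exact h3
    have hp0 : P.coeff 0 = Q.coeff (M + N + 1) * π ^ (N + 1) := by
      apply mul_left_cancel₀ (pow_ne_zero M hπ)
      rw [hco]; ring
    set c : A := Q.coeff (M + N + 1) with hc
    have h4 : (g - algebraMap A K c * w ^ (N + 1)) * z ^ N = aeval z P.divX := by
      apply mul_right_cancel₀ hz0
      have h5 : aeval z P = aeval z P.divX * z + algebraMap A K (P.coeff 0) := by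
        conv_lhs => rw [← P.divX_mul_X_add]
        rw [map_add, map_mul, aeval_X, aeval_C]
      have h6 : (g - algebraMap A K c * w ^ (N + 1)) * z ^ N * z
          = g * z ^ (N + 1) - algebraMap A K c * (w * z) ^ (N + 1) := by ring
      rw [h6, h1, h5, hwz, hp0, map_mul, map_pow]
      ring
    have h7 : (g - algebraMap A K c * w ^ (N + 1)) * w ^ M
        = aeval w (Q - Polynomial.C c * X ^ (N + 1 + M)) := by
      rw [map_sub, ← h2, map_mul, aeval_C, map_pow, aeval_X]
      ring
    obtain ⟨P₁, Q₁, h8⟩ := ih _ _ _ _ h4 h7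
    refine ⟨P₁, Q₁ + Polynomial.C c * X ^ (N + 1), ?_⟩
    rw [map_add, map_mul, aeval_C, map_pow, aeval_X, ← add_assoc, ← h8]
    ring


end Pool.Agent.K4H83.LP
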