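import Mathlib

/-!
# Laurent phenomenon algebras (Lam and Pylyavskyy): definitions

`R` is the coefficient ring (a unique factorization domain in the theorem), `K` the ambient field
(in the theorem the field of rational functions in `n` variables over `Frac R`, realised as the
fraction field of `R[X_1, …, X_n]`).
-/

namespace Pool.Agent.K4H83.LP

open MvPolynomial

universe u v

section Basic

variable (R : Type u) {K : Type v} [CommRing R] [Field K] [Algebra R K] {n : ℕ}

/-- The ring `R[y_1^±, …, y_n^±]` of Laurent polynomials over `R` in the elements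
`y_1, …, y_n` of the field `K`, as a subring of `K`. -/
def laurent (y : Fin n → K) : Subalgebra R K :=
  Algebra.adjoin R (Set.range y ∪ Set.range fun k => (y k)⁻¹)

variable (K) in
/-- A seed: cluster variables `x_1, …, x_n` forming a transcendence basis of `K` over `R`
(equivalently over `Frac R`) and exchange polynomials `F_1, …, F_n` in `R[X_1, …, X_n]`, each
irreducible, divisible by no variable, and `F_i` does not involve `X_i`. -/
@[ext]
structure Seed (n : ℕ) where
  /-- the cluster variables -/
  x : Fin n → K
  /-- the exchange polynomials, as polynomials in the cluster variables -/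
  F : Fin n → MvPolynomial (Fin n) R
  basis : IsTranscendenceBasis R x
  irreducible : ∀ i, Irreducible (F i)
  not_dvd : ∀ i j, ¬ X j ∣ F i
  notMem_vars : ∀ i, i ∉ (F i).vars

end Basic

section Seeds

variable {R : Type u} {K : Type v} [CommRing R] [Field K] [Algebra R K] {n : ℕ}

/-- The exchange polynomial `F_i` of a seed as an element of `K`, that is, `F_i` evaluated at the
cluster variables. -/
noncomputable def Seed.val (s : Seed R K n) (i : Fin n) : K := aeval s.x (s.F i)

/-- The family obtained from the cluster variables of a seed by putting `F_j / x_j` in place of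
`x_j`. If `x` denotes the element `F_j / x_j`, then `x_j = F_j / x`, so substituting
`x_j ← F_j / x` in a rational function of the cluster variables means writing the same element of
`K` as a rational function of this family. -/
noncomputable def Seed.flip (s : Seed R K n) (j : Fin n) : Fin n → K :=
  Function.update s.x j (s.val j / s.x j)

/-- The Laurent polynomial `(∏_k X_k^{a_k}) F_i` evaluated at a point `y` of `K^n`. -/
noncomputable def Seed.hatAt (s : Seed R K n) (i : Fin n) (a : Fin n → ℤ) (y : Fin n → K) : K :=
  (∏ k, y k ^ a k) * aeval y (s.F i)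

/-- `a` is the exponent vector of `F̂_i = (∏_{k ≠ i} x_k^{a_k}) F_i`: the exponents are `≤ 0`,
`a_i = 0`, and for every `j ≠ i` the substitution `x_j ← F_j / x` turns `F̂_i` into a Laurent
polynomial over `R` in `x` and the `x_k` (`k ≠ j`) that is not divisible by `F_j` there. -/
structure Seed.IsHatExponent (s : Seed R K n) (i : Fin n) (a : Fin n → ℤ) : Prop where
  nonpos : ∀ k, a k ≤ 0
  self : a i = 0
  mem : ∀ j, j ≠ i → s.hatAt i a s.x ∈ laurent R (s.flip j)
  not_dvd : ∀ j, j ≠ i → ¬ ∃ g ∈ laurent R (s.flip j), s.hatAt i a s.x = s.val j * g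

/-- `G_j = F_j` with `x_i ← F̂_i|_{x_j ← 0} / z` substituted, where `z` is the new cluster variable
`x_i'` (when `F_j` involves `x_i`, the exponent `a_j` is `0`, so `F̂_i|_{x_j ← 0}` makes sense). -/
noncomputable def Seed.G (s : Seed R K n) (i j : Fin n) (a : Fin n → ℤ) (z : K) : K :=
  aeval (Function.update s.x i (s.hatAt i a (Function.update s.x j 0) / z)) (s.F j)

/-- The polynomial `F_i|_{X_j ← 0}`. -/
noncomputable def Seed.restrict (s : Seed R K n) (i j : Fin n) : MvPolynomial (Fin n) R :=
  aeval (Function.update X j 0) (s.F i)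

/-- `F_j'` is obtained from `G_j` as in the definition of mutation at `i` (for `F_j` involving
`x_i`): `G_j = A · H` where `A` is a polynomial in the `x_k` (`k ≠ i, j`) all of whose irreducible
factors divide `F̂_i|_{x_j ← 0}` (that is, divide `F_i|_{x_j ← 0}`), `H` is a Laurent polynomial in
the new cluster variables that has no common irreducible factor left with `F̂_i|_{x_j ← 0}` in
`R[x_k : k ≠ i, j]` (monomials are units of the Laurent polynomial ring and do not count), and
`F_j' = M · H` with `M` a Laurent monomial in the `x'_k` (`k ≠ j`) with coefficient in `R`. -/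
def Seed.IsNewPoly (s s' : Seed R K n) (i j : Fin n) (a : Fin n → ℤ) : Prop :=
  ∃ (A : MvPolynomial (Fin n) R) (H : K) (c : R) (e : Fin n → ℤ),
    i ∉ A.vars ∧ j ∉ A.vars ∧
    (∀ q, Irreducible q → q ∣ A → q ∣ s.restrict i j) ∧
    H ∈ laurent R s'.x ∧
    s.G i j a (s'.x i) = aeval s.x A * H ∧
    (∀ q, Irreducible q → i ∉ q.vars → j ∉ q.vars → q ∣ s.restrict i j →
      (∃ g ∈ laurent R s'.x, H = aeval s.x q * g) → ∃ k, Associated q (X k)) ∧
    e j = 0 ∧
    s'.val j = algebraMap R K c * (∏ k, s'.x k ^ e k) * H

/-- `s'` is obtained from `s` by mutation at `i`, with `x_i' = F̂_i / x_i` and `x_j' = x_j` for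
`j ≠ i` exactly, and with the new exchange polynomials as in the definition of mutation. -/
def Seed.IsExactMutation (i : Fin n) (s s' : Seed R K n) : Prop :=
  ∃ a : Fin n → ℤ, s.IsHatExponent i a ∧
    s'.x i = s.hatAt i a s.x / s.x i ∧
    (∀ j, j ≠ i → s'.x j = s.x j) ∧
    (∀ j, i ∉ (s.F j).vars → ∃ w : Rˣ, s'.F j = C (w : R) * s.F j) ∧
    (∀ j, i ∈ (s.F j).vars → s.IsNewPoly s' i j a)

/-- Two seeds are equivalent if all `x_i / x_i'` and all `F_i / F_i'` are units of `R`. -/
def Seed.Equivalent (s s' : Seed R K n) : Prop :=
  ∀ i, (∃ w : Rˣ, s'.x i = algebraMap R K (w : R) * s.x i) ∧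
    (∃ w : Rˣ, s'.val i = algebraMap R K (w : R) * s.val i)

/-- `s'` is obtained from `s` by mutation at `i`; the result of a mutation is defined up to
units of `R`. -/
def Seed.IsMutation (i : Fin n) (s s' : Seed R K n) : Prop :=
  ∃ s'' : Seed R K n, s.IsExactMutation i s'' ∧ s''.Equivalent s'

end Seeds

section Algebras

variable (R : Type u) (K : Type v) [CommRing R] [Field K] [Algebra R K] (n : ℕ)

/-- A Laurent phenomenon algebra: a mutation-connected family of seeds in `K`, with one designated
mutation at each `i` for each seed. -/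
structure LPAlgebra where
  /-- the seeds of the algebra -/
  seeds : Set (Seed R K n)
  nonempty : seeds.Nonempty
  /-- the designated mutation at each index -/
  mutate : Fin n → Seed R K n → Seed R K n
  mutate_mem : ∀ s ∈ seeds, ∀ i, mutate i s ∈ seeds
  isMutation : ∀ s ∈ seeds, ∀ i, s.IsMutation i (mutate i s)
  connected : ∀ s ∈ seeds, ∀ t ∈ seeds,
    Relation.EqvGen (fun a b => a ∈ seeds ∧ ∃ i, b = mutate i a) s t

variable {R K n}

/-- The underlying algebra: the `R`-subalgebra of `K` generated by all cluster variables. -/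
def LPAlgebra.algebra (A : LPAlgebra R K n) : Subalgebra R K :=
  Algebra.adjoin R {z | ∃ s ∈ A.seeds, ∃ i, z = s.x i}

/-- An LP algebra is normalized if equivalent seeds coincide. -/
def LPAlgebra.IsNormalized (A : LPAlgebra R K n) : Prop :=
  ∀ s ∈ A.seeds, ∀ t ∈ A.seeds, s.Equivalent t → s = t

/-- Some seed has exchange polynomials `F_i = a_i + ∑_{j ≠ i} c_{ij} x_j` with coefficients
in `R`. -/
def LPAlgebra.HasLinearSeed (A : LPAlgebra R K n) : Prop :=
  ∃ s ∈ A.seeds, ∃ (a : Fin n → R) (c : Fin n → Fin n → R),
    ∀ i, s.F i = C (a i) + ∑ j ∈ Finset.univ.erase i, C (c i j) * X j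

/-- A (normalized) LP algebra is of finite type if it has finitely many seeds. -/
def LPAlgebra.IsFiniteType (A : LPAlgebra R K n) : Prop := A.seeds.Finite

end Algebras

end Pool.Agent.K4H83.LP
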