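import Pool.Agent.K4H83.LP.Assoc

/-! # Linear LP algebras are of finite type -/

namespace Pool.Agent.K4H83.LP

open MvPolynomial

universe u v

section Rescale

variable {R : Type u} {K : Type v} [CommRing R] [IsDomain R] [Field K] [Algebra R K] {n : ℕ}

/-- Rescaling of the variables by units. -/
noncomputable def rescale (w : Fin n → Rˣ) : MvPolynomial (Fin n) R →ₐ[R] MvPolynomial (Fin n) R :=
  aeval fun k => C (w k : R) * X k

lemma aeval_rescale (w : Fin n → Rˣ) (x : Fin n → K) (p : MvPolynomial (Fin n) R) :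
    aeval x (rescale w p) = aeval (fun k => algebraMap R K (w k : R) * x k) p := by
  have : (aeval x).comp (rescale w) = aeval (fun k => algebraMap R K (w k : R) * x k) := by
    apply MvPolynomial.algHom_ext
    intro k
    rw [AlgHom.comp_apply, rescale, aeval_X, aeval_X, map_mul, aeval_X, aeval_C]
  rw [← this]; rfl

lemma rescale_inv (w : Fin n → Rˣ) (p : MvPolynomial (Fin n) R) :
    rescale (fun k => (w k)⁻¹) (rescale w p) = p := by
  have : (rescale (fun k => (w k)⁻¹)).comp (rescale w) = AlgHom.id R _ := by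
    apply MvPolynomial.algHom_ext
    intro k
    rw [AlgHom.comp_apply, rescale, rescale, aeval_X, map_mul, aeval_X, aeval_C, AlgHom.id_apply,
      ← mul_assoc]
    change algebraMap R _ _ * algebraMap R _ _ * X k = X k
    rw [← map_mul, Units.mul_inv, map_one, one_mul]
  have h := DFunLike.congr_fun this p
  exact h

lemma not_dvd_rescale (w : Fin n → Rˣ) {p : MvPolynomial (Fin n) R} {j : Fin n}
    (h : ¬ X j ∣ p) : ¬ X j ∣ rescale w p := by
  intro hd
  apply h
  have h1 := map_dvd (rescale fun k => (w k)⁻¹) hd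
  rw [rescale_inv, rescale, aeval_X] at h1
  exact dvd_of_mul_left_dvd h1

end Rescale

namespace Seed

variable {R : Type u} {K : Type v} [CommRing R] [IsDomain R]
  [Field K] [Algebra R K] {n : ℕ}

/-- If the cluster variables and the products `F̂_i` of two seeds agree up to units, so do the
exchange polynomials. -/
lemma val_of_hat {s s' : Seed R K n} (w : Fin n → Rˣ)
    (hx : ∀ k, s'.x k = algebraMap R K (w k : R) * s.x k) {i : Fin n} {a a' : Fin n → ℤ} {v : Rˣ}
    (h : s'.hatAt i a' s'.x = algebraMap R K (v : R) * s.hatAt i a s.x) :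
    ∃ v' : Rˣ, s'.val i = algebraMap R K (v' : R) * s.val i := by
  have hx' : s'.x = fun k => algebraMap R K (w k : R) * s.x k := funext hx
  have h1 : s'.val i = aeval s.x (rescale w (s'.F i)) := by
    rw [aeval_rescale, Seed.val, ← hx']
  have h2 : (∏ k, s'.x k ^ a' k) =
      algebraMap R K (((∏ k, w k ^ a' k : Rˣ)) : R) * ∏ k, s.x k ^ a' k := by
    rw [Units.coe_prod, map_prod, ← Finset.prod_mul_distrib]
    refine Finset.prod_congr rfl fun k _ => ?_
    rw [hx k, mul_zpow]
    congr 1
    cases a' k with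
    | ofNat m => simp
    | negSucc m =>
      rw [zpow_negSucc, zpow_negSucc, ← map_pow, ← units_inv_map, Units.val_pow_eq_pow_val]
  set W : Rˣ := ∏ k, w k ^ a' k with hW
  have h3 : (∏ k, s.x k ^ a' k) * aeval s.x (rescale w (s'.F i))
      = (∏ k, s.x k ^ a k) * aeval s.x (C ((W⁻¹ * v : Rˣ) : R) * s.F i) := by
    have h4 : algebraMap R K (W : R) * ((∏ k, s.x k ^ a' k) * aeval s.x (rescale w (s'.F i)))
        = algebraMap R K (v : R) * ((∏ k, s.x k ^ a k) * aeval s.x (s.F i)) := by
      rw [← mul_assoc, ← h2, ← h1]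
      exact h
    apply mul_left_cancel₀ (units_map_ne_zero (K := K) W)
    rw [h4, map_mul, aeval_C, Units.val_mul, map_mul, ← units_inv_map]
    have := units_map_ne_zero (K := K) W
    field_simp
  obtain ⟨_, h5⟩ := numer_unique s.indep (fun j => not_dvd_rescale w (s'.not_dvd i j))
    (fun j hj => by
      apply s.not_dvd i j
      rcases (X_prime (i := j)).dvd_or_dvd hj with h | h
      · exfalso
        have h6 : (X j : MvPolynomial (Fin n) R) ∣ 1 := by
          have := dvd_mul_of_dvd_left h (C (((W⁻¹ * v)⁻¹ : Rˣ) : R))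
          rwa [← C_mul, Units.mul_inv, C_1] at this
        exact (X_prime (i := j)).not_isUnit (isUnit_of_dvd_one h6)
      · exact h) h3
  exact ⟨W⁻¹ * v, by rw [h1, h5, map_mul, aeval_C]; rfl⟩

/-- The data of a mutation up to units: the new cluster variable is `F̂_i / x_i` up to a unit. -/
lemma IsMutation.hat {s s' : Seed R K n} {i : Fin n} (h : s.IsMutation i s') :
    ∃ (a : Fin n → ℤ) (w : Rˣ), s.hatAt i a s.x = algebraMap R K (w : R) * (s'.x i * s.x i) := by
  obtain ⟨s'', ⟨a, ha, hxi, -⟩, he⟩ := h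
  obtain ⟨w, hw⟩ := (he i).1
  refine ⟨a, w⁻¹, ?_⟩
  rw [hw, hxi, ← units_inv_map]
  have h1 := units_map_ne_zero (K := K) w
  have h2 := s.x_ne i
  field_simp

/-- Two seeds whose cluster variables, and whose mutated cluster variables, agree up to units are
equivalent. -/
lemma equivalent_of {s s' : Seed R K n} {t t' : Fin n → Seed R K n}
    (ht : ∀ i, s.IsMutation i (t i)) (ht' : ∀ i, s'.IsMutation i (t' i))
    (hx : ∀ k, ∃ w : Rˣ, s'.x k = algebraMap R K (w : R) * s.x k)
    (htx : ∀ k, ∃ w : Rˣ, (t' k).x k = algebraMap R K (w : R) * (t k).x k) :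
    s.Equivalent s' := by
  choose w hw using hx
  choose v hv using htx
  intro i
  refine ⟨⟨w i, hw i⟩, ?_⟩
  obtain ⟨a, u, hu⟩ := (ht i).hat
  obtain ⟨a', u', hu'⟩ := (ht' i).hat
  refine val_of_hat w hw (i := i) (a := a) (a' := a') (v := u' * v i * w i * u⁻¹) ?_
  rw [hu', hu, hv, hw]
  simp only [Units.val_mul, map_mul, ← units_inv_map]
  have h1 := units_map_ne_zero (K := K) u
  field_simp

end Seed

namespace LPAlgebra

variable {R : Type u} {K : Type v} [CommRing R] [IsDomain R] [UniqueFactorizationMonoid R]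
  [Field K] [Algebra R K] {n : ℕ}

/-- All seeds of an LP algebra have the same upper bound. -/
lemma upper_eq (A : LPAlgebra R K n) {s t : Seed R K n} (hs : s ∈ A.seeds) (ht : t ∈ A.seeds) :
    t.upper = s.upper := by
  have h := A.connected s hs t ht
  clear hs ht
  induction h with
  | rel a b hab =>
    obtain ⟨ha, i, rfl⟩ := hab
    exact Seed.upper_eq_of_isMutation (A.isMutation a ha i)
  | refl a => rfl
  | symm a b _ ih => exact ih.symm
  | trans a b c _ _ ih1 ih2 => exact ih2.trans ih1

/-- The main theorem: a normalized LP algebra with a linear seed has finitely many seeds. -/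
theorem finite_seeds (A : LPAlgebra R K n) (hN : A.IsNormalized) (hL : A.HasLinearSeed) :
    A.seeds.Finite := by
  classical
  obtain ⟨s₀, hs₀, a, c, hlin⟩ := hL
  -- the product of the nonzero principal minors
  set W : s₀.upper := ∏ J ∈ Finset.univ.filter (fun J => s₀.y c J ≠ 0), s₀.y c J with hW
  have hW0 : W ≠ 0 := Finset.prod_ne_zero_iff.2 fun J hJ => (Finset.mem_filter.1 hJ).2
  have hW0' : (W : K) ≠ 0 := fun h => hW0 (Subtype.ext h)
  obtain ⟨M, P, hP, hWP⟩ := exists_numer s₀.indep (Seed.mem_upper.1 W.2).1 hW0'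
  have hP0 : P ≠ 0 := by
    rintro rfl
    rw [map_zero, mul_zero] at hWP
    exact hW0' hWP
  have hprime : ∀ s ∈ A.seeds, ∀ k, PrimeIn s₀.upper (s.x k) := fun s hs k => by
    rw [← A.upper_eq hs₀ hs]
    exact s.primeIn_upper k
  -- codes of cluster variables
  let Code := Fin n ⊕ {b : Associates (MvPolynomial (Fin n) R) // b ∣ Associates.mk P}
  have hfinC : Finite Code := by
    have : Finite {b : Associates (MvPolynomial (Fin n) R) // b ∣ Associates.mk P} := by
      have h1 := UniqueFactorizationMonoid.fintypeSubtypeDvd (Associates.mk P)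
        (Associates.mk_ne_zero.2 hP0)
      exact Finite.of_fintype _
    infer_instance
  let CodeRel : K → Code → Prop := fun z q =>
    match q with
    | Sum.inl j => ∃ w : Rˣ, z = algebraMap R K (w : R) * s₀.x j
    | Sum.inr b => (∀ j, ¬ ∃ w : Rˣ, z = algebraMap R K (w : R) * s₀.x j) ∧
        ∃ (m : Fin n → ℤ) (p : MvPolynomial (Fin n) R),
          z = (∏ k, s₀.x k ^ m k) * aeval s₀.x p ∧ Associates.mk p = b
  have hcode : ∀ (s : A.seeds) (k : Fin n), ∃ q, CodeRel (s.1.x k) q := by
    rintro ⟨s, hs⟩ k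
    have hz := hprime s hs k
    by_cases hinit : ∃ j, ∃ w : Rˣ, s.x k = algebraMap R K (w : R) * s₀.x j
    · obtain ⟨j, hj⟩ := hinit
      exact ⟨Sum.inl j, hj⟩
    · have hinit' : ∀ j, ¬ ∃ w : Rˣ, s.x k = algebraMap R K (w : R) * s₀.x j :=
        fun j hj => hinit ⟨j, hj⟩
      have hdvd : DvdIn s₀.upper (s.x k) W := by
        rcases Seed.dichotomy hlin (A.upper_eq hs₀ hs) k with ⟨j, hj⟩ | ⟨J, hJ, hJd⟩
        · exact absurd (s₀.eq_unit_mul hz hj) (hinit' j)
        · have h1 : W = s₀.y c J *
              ∏ J' ∈ (Finset.univ.filter (fun J => s₀.y c J ≠ 0)).erase J, s₀.y c J' :=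
            (Finset.mul_prod_erase (Finset.univ.filter (fun J => s₀.y c J ≠ 0))
              (fun J => s₀.y c J) (Finset.mem_filter.2 ⟨Finset.mem_univ J, hJ⟩)).symm
          have h2 : (W : K) = (s₀.y c J : K) * ((∏ J' ∈ (Finset.univ.filter
              (fun J => s₀.y c J ≠ 0)).erase J, s₀.y c J' : s₀.upper) : K) :=
            congrArg Subtype.val h1
          rw [h2]
          exact hJd.mul_right (Subtype.property _)
      obtain ⟨g, hg, e⟩ := hdvd
      have hg0 : g ≠ 0 := by
        rintro rfl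
        rw [mul_zero] at e
        exact hW0' e
      obtain ⟨m, p, hp, ez⟩ := exists_numer s₀.indep (Seed.mem_upper.1 hz.mem).1 hz.ne_zero
      obtain ⟨m', q, hq, eg⟩ := exists_numer s₀.indep (Seed.mem_upper.1 hg).1 hg0
      have h1 : (∏ k, s₀.x k ^ M k) * aeval s₀.x P
          = (∏ k, s₀.x k ^ (m k + m' k)) * aeval s₀.x (p * q) := by
        rw [← hWP, e, map_mul, ← prod_zpow_mul s₀.x_ne, ez, eg]
        ring
      obtain ⟨_, h2⟩ := numer_unique s₀.indep hP (fun j hj => by
        rcases (X_prime (i := j)).dvd_or_dvd hj with h | h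
        · exact hp j h
        · exact hq j h) h1
      exact ⟨Sum.inr ⟨Associates.mk p, Associates.mk_le_mk_of_dvd ⟨q, h2⟩⟩,
        hinit', m, p, ez, rfl⟩
  have hcodeinj : ∀ (z z' : K) (q : Code), PrimeIn s₀.upper z → PrimeIn s₀.upper z' →
      CodeRel z q → CodeRel z' q → ∃ w : Rˣ, z' = algebraMap R K (w : R) * z := by
    intro z z' q hz hz' h h'
    rcases q with j | b
    · obtain ⟨w, hw⟩ := h
      obtain ⟨w', hw'⟩ := h'
      refine ⟨w' * w⁻¹, ?_⟩
      have h1 := units_map_ne_zero (K := K) w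
      rw [hw, hw', Units.val_mul, map_mul, ← units_inv_map]
      field_simp
    · obtain ⟨hn, m, p, e, hb⟩ := h
      obtain ⟨hn', m', p', e', hb'⟩ := h'
      exact s₀.unit_of_numer hz hz' hn hn' e e'
        (Associates.mk_eq_mk_iff_associated.1 (hb.trans hb'.symm))
  choose code hcode using hcode
  -- the injection
  let Θ : A.seeds → (Fin n → Code) × (Fin n → Code) := fun s =>
    (fun k => code s k, fun k => code ⟨A.mutate k s.1, A.mutate_mem s.1 s.2 k⟩ k)
  have hΘ : Function.Injective Θ := by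
    intro s s' h
    have h1 : ∀ k, code s k = code s' k := fun k => congrFun (congrArg Prod.fst h) k
    have h2 : ∀ k, code ⟨A.mutate k s.1, A.mutate_mem s.1 s.2 k⟩ k
        = code ⟨A.mutate k s'.1, A.mutate_mem s'.1 s'.2 k⟩ k :=
      fun k => congrFun (congrArg Prod.snd h) k
    apply Subtype.ext
    apply hN s.1 s.2 s'.1 s'.2
    refine Seed.equivalent_of (t := fun k => A.mutate k s.1) (t' := fun k => A.mutate k s'.1)
      (fun i => A.isMutation s.1 s.2 i) (fun i => A.isMutation s'.1 s'.2 i) (fun k => ?_)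
      (fun k => ?_)
    · refine hcodeinj _ _ (code s k) (hprime _ s.2 k) (hprime _ s'.2 k) (hcode s k) ?_
      rw [h1 k]
      exact hcode s' k
    · refine hcodeinj _ _ (code ⟨A.mutate k s.1, A.mutate_mem s.1 s.2 k⟩ k)
        (hprime _ (A.mutate_mem s.1 s.2 k) k) (hprime _ (A.mutate_mem s'.1 s'.2 k) k)
        (hcode ⟨A.mutate k s.1, A.mutate_mem s.1 s.2 k⟩ k) ?_
      rw [h2 k]
      exact hcode ⟨A.mutate k s'.1, A.mutate_mem s'.1 s'.2 k⟩ k
  have : Finite A.seeds := Finite.of_injective Θ hΘ
  exact Set.toFinite _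

end LPAlgebra

end Pool.Agent.K4H83.LP
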