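import Pool.Agent.K4H83.LP.SeedBasic

/-! # The upper bound ring of a seed is invariant under mutation -/

namespace Pool.Agent.K4H83.LP

open MvPolynomial

universe u v

lemma prod_zpow_split {K : Type v} [Field K] {n : ℕ} (x : Fin n → K) (e : Fin n → ℤ) (i : Fin n) :
    ∏ k, x k ^ e k = x i ^ e i * ∏ k, x k ^ (Function.update e i 0) k := by
  rw [← Finset.mul_prod_erase _ _ (Finset.mem_univ i),
    ← Finset.mul_prod_erase _ (fun k => x k ^ (Function.update e i 0) k) (Finset.mem_univ i),
    Function.update_self, zpow_zero, one_mul]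
  congr 1
  refine Finset.prod_congr rfl fun k hk => ?_
  rw [Function.update_of_ne (Finset.ne_of_mem_erase hk)]

namespace Seed

section

variable {R : Type u} {K : Type v} [CommRing R] [IsDomain R] [UniqueFactorizationMonoid R]
  [Field K] [Algebra R K] {n : ℕ} {s s' : Seed R K n} {i : Fin n} {a : Fin n → ℤ}

/-- The data of an exact mutation with a given exponent vector. -/
structure Mut (s s' : Seed R K n) (i : Fin n) (a : Fin n → ℤ) : Prop where
  ha : s.IsHatExponent i a
  hxi : s'.x i = s.hatAt i a s.x / s.x i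
  hxj : ∀ j, j ≠ i → s'.x j = s.x j
  hF1 : ∀ j, i ∉ (s.F j).vars → ∃ w : Rˣ, s'.F j = C (w : R) * s.F j
  hF2 : ∀ j, i ∈ (s.F j).vars → s.IsNewPoly s' i j a

lemma hat_mem_of_closed {Q : Subalgebra R K} (hinv : ∀ g ∈ Q, g⁻¹ ∈ Q)
    (h : ∀ k, k ≠ i → s.x k ∈ Q) (ha : a i = 0) : s.hatAt i a s.x ∈ Q := by
  refine Q.mul_mem (prod_zpow_mem fun k hk => ?_).1 (aeval_mem_of_vars fun k hk => h k ?_)
  · have hki : k ≠ i := by rintro rfl; exact hk ha
    exact ⟨h k hki, hinv _ (h k hki)⟩
  · rintro rfl
    exact s.notMem_vars _ hk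

variable (m : Mut s s' i a)

include m

lemma Mut.case1 {j : Fin n} (hi : i ∉ (s.F j).vars) :
    ∃ w : Rˣ, s'.val j = algebraMap R K (w : R) * s.val j ∧ i ∉ (s'.F j).vars := by
  obtain ⟨w, hw⟩ := m.hF1 j hi
  refine ⟨w, ?_, ?_⟩
  · rw [Seed.val, hw, map_mul, aeval_C]
    congr 1
    exact aeval_congr_vars fun k hk => m.hxj k fun e => hi (e ▸ hk)
  · rw [hw]
    exact notMem_vars_mul (by simp) hi

lemma Mut.x_i : s.x i = s.hatAt i a s.x * (s'.x i)⁻¹ := by
  rw [m.hxi, inv_div, mul_div_cancel₀ _ (s.hat_ne a)]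

lemma Mut.mono_mem {L : Subalgebra R K} (h : ∀ k, k ≠ i → s.x k ∈ L ∧ (s.x k)⁻¹ ∈ L) :
    (∏ k, s.x k ^ a k) ∈ L ∧ (∏ k, s.x k ^ a k)⁻¹ ∈ L :=
  prod_zpow_mem fun k hk => h k (by rintro rfl; exact hk m.ha.self)

lemma Mut.laurent_x : laurent R s'.x = laurent R (s.flip i) := by
  have hM0 : (∏ k, s.x k ^ a k) ≠ 0 :=
    Finset.prod_ne_zero_iff.2 fun k _ => zpow_ne_zero _ (s.x_ne k)
  have e1 : s'.x i = (∏ k, s.x k ^ a k) * s.flip i i := by
    rw [m.hxi, flip_self, Seed.hatAt, Seed.val, mul_div_assoc]
  apply le_antisymm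
  · have hM := m.mono_mem (L := laurent R (s.flip i)) fun k hk =>
      ⟨s.x_mem_flip hk, s.x_inv_mem_flip hk⟩
    refine laurent_le (fun k => ?_) (fun k => ?_)
    · by_cases hk : k = i
      · subst hk
        rw [e1]
        exact Subalgebra.mul_mem _ hM.1 (self_mem_laurent _ _)
      · rw [m.hxj k hk]; exact s.x_mem_flip hk
    · by_cases hk : k = i
      · subst hk
        rw [e1, mul_inv]
        exact Subalgebra.mul_mem _ hM.2 (inv_mem_laurent _ _)
      · rw [m.hxj k hk]; exact s.x_inv_mem_flip hk
  · have hx1 : ∀ k, k ≠ i → s.x k ∈ laurent R s'.x ∧ (s.x k)⁻¹ ∈ laurent R s'.x := fun k hk => by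
      rw [← m.hxj k hk]
      exact ⟨self_mem_laurent _ _, inv_mem_laurent _ _⟩
    have hM := m.mono_mem (L := laurent R s'.x) hx1
    have e2 : s.flip i i = (∏ k, s.x k ^ a k)⁻¹ * s'.x i := by
      rw [e1, inv_mul_cancel_left₀ hM0]
    refine laurent_le (fun k => ?_) (fun k => ?_)
    · by_cases hk : k = i
      · subst hk
        rw [e2]
        exact Subalgebra.mul_mem _ hM.2 (self_mem_laurent _ _)
      · rw [flip_of_ne _ hk]; exact (hx1 k hk).1
    · by_cases hk : k = i
      · subst hk
        rw [e2, mul_inv, inv_inv]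
        exact Subalgebra.mul_mem _ hM.1 (inv_mem_laurent _ _)
      · rw [flip_of_ne _ hk]; exact (hx1 k hk).2

lemma Mut.laurent_flip : laurent R (s'.flip i) = laurent R s.x := by
  have hM0 : (∏ k, s.x k ^ a k) ≠ 0 :=
    Finset.prod_ne_zero_iff.2 fun k _ => zpow_ne_zero _ (s.x_ne k)
  obtain ⟨w, hw, -⟩ := m.case1 (s.notMem_vars i)
  have hw0 := units_map_ne_zero (K := K) w
  have hx0 := s.x_ne i
  have hv0 := s.val_ne i
  have e1 : s'.flip i i = algebraMap R K (w : R) * ((∏ k, s.x k ^ a k)⁻¹ * s.x i) := by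
    rw [flip_self, hw, m.hxi, Seed.hatAt, ← Seed.val]
    field_simp
  apply le_antisymm
  · have hM := m.mono_mem (L := laurent R s.x) fun k _ =>
      ⟨self_mem_laurent _ _, inv_mem_laurent _ _⟩
    refine laurent_le (fun k => ?_) (fun k => ?_)
    · by_cases hk : k = i
      · subst hk
        rw [e1]
        exact Subalgebra.mul_mem _ (Subalgebra.algebraMap_mem _ _)
          (Subalgebra.mul_mem _ hM.2 (self_mem_laurent _ _))
      · rw [flip_of_ne _ hk, m.hxj k hk]; exact self_mem_laurent _ _
    · by_cases hk : k = i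
      · subst hk
        rw [e1, mul_inv, mul_inv, inv_inv, units_inv_map]
        exact Subalgebra.mul_mem _ (Subalgebra.algebraMap_mem _ _)
          (Subalgebra.mul_mem _ hM.1 (inv_mem_laurent _ _))
      · rw [flip_of_ne _ hk, m.hxj k hk]; exact inv_mem_laurent _ _
  · have hx1 : ∀ k, k ≠ i → s.x k ∈ laurent R (s'.flip i) ∧ (s.x k)⁻¹ ∈ laurent R (s'.flip i) :=
      fun k hk => by
        rw [← m.hxj k hk]
        exact ⟨s'.x_mem_flip hk, s'.x_inv_mem_flip hk⟩
    have hM := m.mono_mem (L := laurent R (s'.flip i)) hx1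
    have e2 : s.x i = algebraMap R K ((w⁻¹ : Rˣ) : R) * ((∏ k, s.x k ^ a k) * s'.flip i i) := by
      rw [← units_inv_map, e1]
      field_simp
    refine laurent_le (fun k => ?_) (fun k => ?_)
    · by_cases hk : k = i
      · subst hk
        rw [e2]
        exact Subalgebra.mul_mem _ (Subalgebra.algebraMap_mem _ _)
          (Subalgebra.mul_mem _ hM.1 (self_mem_laurent _ _))
      · exact (hx1 k hk).1
    · by_cases hk : k = i
      · subst hk
        rw [e2, mul_inv, mul_inv, units_inv_map]
        exact Subalgebra.mul_mem _ (Subalgebra.algebraMap_mem _ _)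
          (Subalgebra.mul_mem _ hM.2 (inv_mem_laurent _ _))
      · exact (hx1 k hk).2

/-- The substituted family of the definition of `G_j` is algebraically independent, and
properties of `F̂_i|_{x_j ← 0}`. -/
lemma Mut.star {j : Fin n} (hji : j ≠ i) (hi : i ∈ (s.F j).vars) :
    a j = 0 ∧ s.hatAt i a (Function.update s.x j 0) ≠ 0 ∧
    ∃ hy : AlgebraicIndependent R
      (Function.update s.x i (s.hatAt i a (Function.update s.x j 0) / s'.x i)),
      s.hatAt i a (Function.update s.x j 0) ∈ quotAlg hy i := by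
  have haj := s.hatExp_zero m.ha hji hi
  have e1 := s.hatAt_zero (i := i) haj
  have hM0 : (∏ k, s.x k ^ a k) ≠ 0 :=
    Finset.prod_ne_zero_iff.2 fun k _ => zpow_ne_zero _ (s.x_ne k)
  have hc0 : s.hatAt i a (Function.update s.x j 0) ≠ 0 := by
    rw [e1]
    exact mul_ne_zero hM0 (aeval_ne_zero s.indep (s.restrict_ne_zero i j))
  have hmem : ∀ {Q : Subalgebra R K}, (∀ g ∈ Q, g⁻¹ ∈ Q) → (∀ k, k ≠ i → s.x k ∈ Q) →
      s.hatAt i a (Function.update s.x j 0) ∈ Q := by
    intro Q hinv h
    rw [e1]
    refine Q.mul_mem (m.mono_mem fun k hk => ⟨h k hk, hinv _ (h k hk)⟩).1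
      (aeval_mem_of_vars fun k hk => h k ?_)
    rintro rfl
    exact s.restrict_notMem _ _ hk
  have h1 : s.hatAt i a (Function.update s.x j 0) ∈ quotAlg s'.indep i :=
    hmem (fun g hg => inv_mem_quotAlg _ hg) fun k hk => by
      rw [← m.hxj k hk]; exact self_mem_quotAlg _ hk
  have h2 := indep_update_quot s'.indep hc0 h1
  have e2 : Function.update s'.x i (s.hatAt i a (Function.update s.x j 0) / s'.x i)
      = Function.update s.x i (s.hatAt i a (Function.update s.x j 0) / s'.x i) := by
    funext k
    by_cases hk : k = i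
    · subst hk; simp
    · rw [Function.update_of_ne hk, Function.update_of_ne hk, m.hxj k hk]
  rw [e2] at h2
  refine ⟨haj, hc0, h2, hmem (fun g hg => inv_mem_quotAlg _ hg) fun k hk => ?_⟩
  have := self_mem_quotAlg h2 hk
  rwa [Function.update_of_ne hk] at this

lemma Mut.G_ne {j : Fin n} (hji : j ≠ i) (hi : i ∈ (s.F j).vars) : s.G i j a (s'.x i) ≠ 0 := by
  obtain ⟨_, _, hy, _⟩ := m.star hji hi
  exact aeval_ne_zero hy (s.irreducible j).ne_zero

lemma Mut.new_mem_vars {j : Fin n} (hji : j ≠ i) (hi : i ∈ (s.F j).vars) :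
    i ∈ (s'.F j).vars := by
  by_contra hi'
  obtain ⟨haj, hc0, hy, hc0m⟩ := m.star hji hi
  obtain ⟨A, H, c, e, hAi, hAj, _, _, hG, _, hej, hval⟩ := m.hF2 j hi
  set c0 := s.hatAt i a (Function.update s.x j 0) with hc0def
  set y := Function.update s.x i (c0 / s'.x i) with hydef
  have hx : ∀ k, k ≠ i → s.x k ∈ quotAlg hy i := fun k hk => by
    have hyk : y k = s.x k := by rw [hydef, Function.update_of_ne hk]
    rw [← hyk]
    exact self_mem_quotAlg hy hk
  have hx' : ∀ k, k ≠ i → s'.x k ∈ quotAlg hy i := fun k hk => by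
    rw [m.hxj k hk]; exact hx k hk
  have hcval : algebraMap R K c * (∏ k, s'.x k ^ e k) * H ≠ 0 := by
    rw [← hval]; exact s'.val_ne j
  have hc : algebraMap R K c ≠ 0 := left_ne_zero_of_mul (left_ne_zero_of_mul hcval)
  have hH : H ≠ 0 := right_ne_zero_of_mul hcval
  have hyi : y i = c0 / s'.x i := Function.update_self _ _ _
  have hx'i := s'.x_ne i
  set P : K := ∏ k, s'.x k ^ (Function.update e i 0) k with hP
  have hPm : P ∈ quotAlg hy i := (prod_zpow_mem fun k hk => by
    have hki : k ≠ i := by
      rintro rfl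
      rw [Function.update_self] at hk
      exact hk rfl
    exact ⟨hx' k hki, inv_mem_quotAlg hy (hx' k hki)⟩).1
  have hP0 : P ≠ 0 := Finset.prod_ne_zero_iff.2 fun k _ => zpow_ne_zero _ (s'.x_ne k)
  have hAm : aeval s.x A ∈ quotAlg hy i :=
    aeval_mem_of_vars fun k hk => hx k fun h => hAi (h ▸ hk)
  have hvm : s'.val j ∈ quotAlg hy i :=
    aeval_mem_of_vars fun k hk => hx' k fun h => hi' (h ▸ hk)
  refine notQuot hy hi (s.not_dvd j i)
    (κ := aeval s.x A * s'.val j * (algebraMap R K c * P * c0 ^ e i)⁻¹) ?_ (e i) ?_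
  · refine Subalgebra.mul_mem _ (Subalgebra.mul_mem _ hAm hvm) (inv_mem_quotAlg hy ?_)
    exact Subalgebra.mul_mem _ (Subalgebra.mul_mem _ (Subalgebra.algebraMap_mem _ _) hPm)
      (zpow_mem_quotAlg hy hc0m _)
  · have h1 : aeval y (s.F j) = aeval s.x A * H := hG
    rw [h1, hval, prod_zpow_split s'.x e i, ← hP, hyi, div_zpow]
    have hz1 : c0 ^ e i ≠ 0 := zpow_ne_zero _ hc0
    have hz2 : s'.x i ^ e i ≠ 0 := zpow_ne_zero _ hx'i
    field_simp

/-- Forward inclusion. -/
lemma Mut.forward {j : Fin n} (hji : j ≠ i) {f : K} (h1 : f ∈ laurent R s.x)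
    (h2 : f ∈ laurent R (s.flip j)) (h3 : f ∈ laurent R s'.x) : f ∈ laurent R (s'.flip j) := by
  set L := laurent R (s'.flip j) with hL
  have hπ : PrimeIn L (s'.val j) := s'.primeIn_flip j
  have hLO := le_Loc L hπ
  have hxL : ∀ k, s'.x k ∈ L := s'.all_x_mem_flip j
  have hxiL : ∀ k, k ≠ j → (s'.x k)⁻¹ ∈ L := fun k hk => s'.x_inv_mem_flip hk
  have hij : i ≠ j := hji.symm
  have hvali : s.val i = aeval s'.x (s.F i) := aeval_congr_vars fun k hk =>
    (m.hxj k fun e => s.notMem_vars i (e ▸ hk)).symm
  have key : (s.hatAt i a s.x ∈ L ∧ ¬ DvdIn L (s'.val j) (s.hatAt i a s.x)) ∧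
      (s.x i ∈ L → s.val j / s.x j ∈ L) := by
    by_cases hi : i ∈ (s.F j).vars
    · -- `F_j` involves `x_i`
      have hi' := m.new_mem_vars hji hi
      obtain ⟨haj, hc0, _, _⟩ := m.star hji hi
      obtain ⟨A, H, c, e, hAi, hAj, _, _, hG, _, hej, hval⟩ := m.hF2 j hi
      have hM : (∏ k, s.x k ^ a k) ∈ L ∧ (∏ k, s.x k ^ a k)⁻¹ ∈ L := prod_zpow_mem fun k hk => by
        have hki : k ≠ i := by rintro rfl; exact hk m.ha.self
        have hkj : k ≠ j := by rintro rfl; exact hk haj
        rw [← m.hxj k hki]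
        exact ⟨hxL k, hxiL k hkj⟩
      set M : K := ∏ k, s.x k ^ a k with hMdef
      have hM0 : M ≠ 0 := Finset.prod_ne_zero_iff.2 fun k _ => zpow_ne_zero _ (s.x_ne k)
      have hhat : s.hatAt i a s.x = M * aeval s'.x (s.F i) := by
        rw [← hvali]; rfl
      have hhatL : s.hatAt i a s.x ∈ L := by
        rw [hhat]
        exact L.mul_mem hM.1 (aeval_mem_of_vars fun k _ => hxL k)
      have hres : aeval s.x (s.restrict i j) = aeval s'.x (s.restrict i j) :=
        aeval_congr_vars fun k hk => (m.hxj k fun e => s.restrict_notMem i j (e ▸ hk)).symm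
      have hsub : DvdIn L (s'.val j) (aeval s'.x (s.F i) - aeval s'.x (s.restrict i j)) :=
        s.sub_restrict_dvdIn (fun k _ => hxL k) (s'.dvdIn_x j)
      have hc0e : s.hatAt i a (Function.update s.x j 0) = M * aeval s'.x (s.restrict i j) := by
        rw [← hres]; exact s.hatAt_zero haj
      have hc0L : s.hatAt i a (Function.update s.x j 0) ∈ L := by
        rw [hc0e]
        exact L.mul_mem hM.1 (aeval_mem_of_vars fun k _ => hxL k)
      have hdiff : DvdIn L (s'.val j)
          (s.hatAt i a s.x - s.hatAt i a (Function.update s.x j 0)) := by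
        rw [hhat, hc0e, ← mul_sub]
        exact hsub.mul_left hM.1
      refine ⟨⟨hhatL, fun hd => ?_⟩, fun hxi => ?_⟩
      · have h4 : DvdIn L (s'.val j) (aeval s'.x (s.F i)) := by
          have := hd.mul_left hM.2
          rwa [hhat, inv_mul_cancel_left₀ hM0] at this
        have h5 := h4.sub hsub
        rw [sub_sub_cancel] at h5
        exact s'.not_dvdIn_flip hi' (s.restrict_ne_zero i j) (s.restrict_notMem i j)
          (s.restrict_notMem_self i j) h5
      · set c0 := s.hatAt i a (Function.update s.x j 0) with hc0def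
        have hd1 : DvdIn L (s'.val j) (s.val j - s.G i j a (s'.x i)) := by
          refine aeval_congr_mod _ (fun k _ => ?_) (fun k _ => ?_) (fun k _ => ?_)
          · by_cases hk : k = i
            · rw [hk]; exact hxi
            · rw [← m.hxj k hk]; exact hxL k
          · by_cases hk : k = i
            · subst hk
              rw [Function.update_self, div_eq_mul_inv]
              exact L.mul_mem hc0L (hxiL _ hij)
            · rw [Function.update_of_ne hk, ← m.hxj k hk]; exact hxL k
          · by_cases hk : k = i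
            · subst hk
              rw [Function.update_self, m.x_i, div_eq_mul_inv, ← sub_mul]
              exact hdiff.mul_right (hxiL _ hij)
            · rw [Function.update_of_ne hk, sub_self]; exact dvdIn_zero _ _
        have hP := prod_zpow_mem (L := L) (x := s'.x) (a := e) fun k hk => by
          have hkj : k ≠ j := by rintro rfl; exact hk hej
          exact ⟨hxL k, hxiL k hkj⟩
        set P : K := ∏ k, s'.x k ^ e k with hPdef
        have hP0 : P ≠ 0 := Finset.prod_ne_zero_iff.2 fun k _ => zpow_ne_zero _ (s'.x_ne k)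
        have hAL : aeval s.x A ∈ L := by
          have : aeval s.x A = aeval s'.x A :=
            aeval_congr_vars fun k hk => (m.hxj k fun e => hAi (e ▸ hk)).symm
          rw [this]
          exact aeval_mem_of_vars fun k _ => hxL k
        have hcval : algebraMap R K c * P * H ≠ 0 := by
          rw [← hval]; exact s'.val_ne j
        have hc : c ≠ 0 := by
          rintro rfl
          rw [map_zero, zero_mul, zero_mul] at hcval
          exact hcval rfl
        have hGL : s.G i j a (s'.x i) ∈ L := by
          refine aeval_mem_of_vars fun k _ => ?_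
          by_cases hk : k = i
          · subst hk
            rw [Function.update_self, div_eq_mul_inv]
            exact L.mul_mem hc0L (hxiL _ hij)
          · rw [Function.update_of_ne hk, ← m.hxj k hk]; exact hxL k
        have hd2 : DvdIn L (s'.val j) (algebraMap R K c * P * s.G i j a (s'.x i)) := by
          refine ⟨aeval s.x A, hAL, ?_⟩
          rw [hG, hval]; ring
        have hcP : algebraMap R K c * P ∈ L := L.mul_mem (L.algebraMap_mem _) hP.1
        have hd3 : DvdIn L (s'.val j) (s.G i j a (s'.x i)) := by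
          refine (hπ.dvd_or _ hcP _ hGL hd2).resolve_left fun h4 => ?_
          have h5 : DvdIn L (s'.val j) (aeval s'.x (C c)) := by
            have := h4.mul_right hP.2
            rwa [mul_assoc, mul_inv_cancel₀ hP0, mul_one, ← aeval_C s'.x] at this
          exact s'.not_dvdIn_flip hi' (by simpa using hc) (by simp) (by simp) h5
        have hd4 : DvdIn L (s'.val j) (s.val j) := by
          have := hd1.add hd3
          rwa [sub_add_cancel] at this
        obtain ⟨g, hg, hge⟩ := hd4
        rw [hge, mul_comm, mul_div_assoc, ← m.hxj j hji]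
        exact L.mul_mem hg (s'.u_mem_flip j)
    · -- `F_j` does not involve `x_i`
      obtain ⟨w, hw, hi'⟩ := m.case1 hi
      have hw0 := units_map_ne_zero (K := K) w
      have hquot1 : s.hatAt i a s.x ∈ quotAlg (s.flip_indep j) i := by
        refine hat_mem_of_closed (fun g hg => inv_mem_quotAlg _ hg) (fun k hk => ?_) m.ha.self
        by_cases hkj : k = j
        · rw [hkj, s.x_eq j, ← s.flip_self j]
          refine Subalgebra.mul_mem _ ?_ (inv_mem_quotAlg _ (self_mem_quotAlg _ hji))
          rw [← s.val_flip j]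
          exact aeval_mem_of_vars fun k hk => self_mem_quotAlg _ fun e => hi (e ▸ hk)
        · rw [← s.flip_of_ne hkj]; exact self_mem_quotAlg _ hk
      have hquot2 : s.hatAt i a s.x ∈ quotAlg (s'.flip_indep j) i := by
        refine hat_mem_of_closed (fun g hg => inv_mem_quotAlg _ hg) (fun k hk => ?_) m.ha.self
        rw [← m.hxj k hk]
        by_cases hkj : k = j
        · rw [hkj, s'.x_eq j, ← s'.flip_self j]
          refine Subalgebra.mul_mem _ ?_ (inv_mem_quotAlg _ (self_mem_quotAlg _ hji))
          rw [← s'.val_flip j]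
          exact aeval_mem_of_vars fun k hk => self_mem_quotAlg _ fun e => hi' (e ▸ hk)
        · rw [← s'.flip_of_ne hkj]; exact self_mem_quotAlg _ hk
      have hquot3 : s'.val j ∈ quotAlg (s'.flip_indep j) i := by
        rw [← s'.val_flip j]
        exact aeval_mem_of_vars fun k hk => self_mem_quotAlg _ fun e => hi' (e ▸ hk)
      have hu : s.val j / s.x j = algebraMap R K ((w⁻¹ : Rˣ) : R) * s'.flip j j := by
        rw [flip_self, hw, m.hxj j hji, ← units_inv_map]
        field_simp
      have hle1 : laurent R (Function.update (s.flip j) i (s'.x i)) ≤ L := by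
        refine laurent_le (fun k => ?_) (fun k => ?_)
        · by_cases hk : k = i
          · subst hk; rw [Function.update_self]; exact hxL k
          · rw [Function.update_of_ne hk]
            by_cases hkj : k = j
            · subst hkj
              rw [flip_self, hu]
              exact L.mul_mem (L.algebraMap_mem _) (self_mem_laurent _ _)
            · rw [flip_of_ne _ hkj, ← m.hxj k hk]; exact hxL k
        · by_cases hk : k = i
          · subst hk; rw [Function.update_self]; exact hxiL k hij
          · rw [Function.update_of_ne hk]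
            by_cases hkj : k = j
            · subst hkj
              rw [flip_self, hu, mul_inv, units_inv_map]
              exact L.mul_mem (L.algebraMap_mem _) (inv_mem_laurent _ _)
            · rw [flip_of_ne _ hkj, ← m.hxj k hk]; exact hxiL k hkj
      have hle2 : laurent R (Function.update (s'.flip j) i (s.x i)) ≤ laurent R (s.flip j) := by
        have hu' : s'.flip j j = algebraMap R K (w : R) * s.flip j j := by
          rw [flip_self, flip_self, hw, m.hxj j hji, mul_div_assoc]
        refine laurent_le (fun k => ?_) (fun k => ?_)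
        · by_cases hk : k = i
          · subst hk; rw [Function.update_self]; exact s.x_mem_flip hij
          · rw [Function.update_of_ne hk]
            by_cases hkj : k = j
            · subst hkj
              rw [hu']
              exact Subalgebra.mul_mem _ (Subalgebra.algebraMap_mem _ _) (self_mem_laurent _ _)
            · rw [flip_of_ne _ hkj, m.hxj k hk]; exact s.x_mem_flip hkj
        · by_cases hk : k = i
          · subst hk; rw [Function.update_self]; exact s.x_inv_mem_flip hij
          · rw [Function.update_of_ne hk]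
            by_cases hkj : k = j
            · subst hkj
              rw [hu', mul_inv, units_inv_map]
              exact Subalgebra.mul_mem _ (Subalgebra.algebraMap_mem _ _) (inv_mem_laurent _ _)
            · rw [flip_of_ne _ hkj, m.hxj k hk]; exact s.x_inv_mem_flip hkj
      refine ⟨⟨?_, ?_⟩, fun _ => ?_⟩
      · apply hle1
        refine transfer_quot (s.flip_indep j) (fun k => ?_) (fun k hk => ?_) (m.ha.mem j hji) hquot1
        · by_cases hk : k = i
          · subst hk; rw [Function.update_self]; exact s'.x_ne k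
          · rw [Function.update_of_ne hk]; exact indep_ne_zero (s.flip_indep j) k
        · exact Function.update_of_ne hk _ _
      · rintro ⟨g, hg, hge⟩
        apply m.ha.not_dvd j hji
        have hgq : g ∈ quotAlg (s'.flip_indep j) i := by
          have : g = s.hatAt i a s.x * (s'.val j)⁻¹ := by
            rw [hge, mul_comm (s'.val j) g, mul_assoc, mul_inv_cancel₀ (s'.val_ne j), mul_one]
          rw [this]
          exact Subalgebra.mul_mem _ hquot2 (inv_mem_quotAlg _ hquot3)
        have hg2 : g ∈ laurent R (s.flip j) := by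
          apply hle2
          refine transfer_quot (s'.flip_indep j) (fun k => ?_) (fun k hk => ?_) hg hgq
          · by_cases hk : k = i
            · subst hk; rw [Function.update_self]; exact s.x_ne k
            · rw [Function.update_of_ne hk]; exact indep_ne_zero (s'.flip_indep j) k
          · exact Function.update_of_ne hk _ _
        refine ⟨algebraMap R K (w : R) * g,
          Subalgebra.mul_mem _ (Subalgebra.algebraMap_mem _ _) hg2, ?_⟩
        rw [hge, hw]; ring
      · rw [hu]
        exact L.mul_mem (L.algebraMap_mem _) (self_mem_laurent _ _)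
  obtain ⟨⟨hhat, hnd⟩, hu⟩ := key
  have hxi : s.x i ∈ L := by
    rw [m.x_i]; exact L.mul_mem hhat (hxiL i hij)
  have hxiinv : (s.x i)⁻¹ ∈ Loc L hπ := by
    rw [m.x_i, mul_inv, inv_inv]
    exact Subalgebra.mul_mem _ (inv_mem_Loc hπ hhat hnd) (hLO (hxL i))
  have hB : polyRing R s.x j (s.val j / s.x j) ≤ Loc L hπ := by
    refine polyRing_le (fun k => ?_) (hLO (hu hxi)) (fun k hk => ?_)
    · by_cases hk : k = i
      · rw [hk]; exact hLO hxi
      · rw [← m.hxj k hk]; exact hLO (hxL k)
    · by_cases hki : k = i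
      · rw [hki]; exact hxiinv
      · rw [← m.hxj k hki]; exact hLO (hxiL k hk)
  have hfO : f ∈ Loc L hπ :=
    hB (mem_polyRing s.indep (s.irreducible j).ne_zero (s.notMem_vars j) h1 h2)
  obtain ⟨N, hN⟩ := exists_pow_mul_mem s'.x_ne (s'.val_ne j) (s'.val_mem_flip j) h3
  exact mem_of_mem_Loc hπ hfO hN

/-- Backward inclusion. -/
lemma Mut.backward {j : Fin n} (hji : j ≠ i) {f : K} (h1 : f ∈ laurent R s'.x)
    (h2 : f ∈ laurent R (s'.flip j)) (h3 : f ∈ laurent R s.x) : f ∈ laurent R (s.flip j) := by
  set L := laurent R (s.flip j) with hL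
  have hπ : PrimeIn L (s.val j) := s.primeIn_flip j
  have hLO := le_Loc L hπ
  have hxL : ∀ k, s.x k ∈ L := s.all_x_mem_flip j
  have hxiL : ∀ k, k ≠ j → (s.x k)⁻¹ ∈ L := fun k hk => s.x_inv_mem_flip hk
  have hij : i ≠ j := hji.symm
  have hhatL : s.hatAt i a s.x ∈ L := m.ha.mem j hji
  have hhatO := inv_mem_Loc hπ hhatL (m.ha.not_dvd j hji)
  have hx'iL : s'.x i ∈ L := by
    rw [m.hxi, div_eq_mul_inv]; exact L.mul_mem hhatL (hxiL i hij)
  have hx'iO : (s'.x i)⁻¹ ∈ Loc L hπ := by
    rw [m.hxi, inv_div, div_eq_mul_inv]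
    exact Subalgebra.mul_mem _ (hLO (hxL i)) hhatO
  have hx'L : ∀ k, s'.x k ∈ L := fun k => by
    by_cases hk : k = i
    · rw [hk]; exact hx'iL
    · rw [m.hxj k hk]; exact hxL k
  have hx'O : ∀ k, k ≠ j → (s'.x k)⁻¹ ∈ Loc L hπ := fun k hkj => by
    by_cases hk : k = i
    · rw [hk]; exact hx'iO
    · rw [m.hxj k hk]; exact hLO (hxiL k hkj)
  have hu : s'.val j / s'.x j ∈ Loc L hπ := by
    by_cases hi : i ∈ (s.F j).vars
    · obtain ⟨haj, hc0, _, _⟩ := m.star hji hi
      have hGne := m.G_ne hji hi
      obtain ⟨A, H, c, e, hAi, hAj, _, _, hG, _, hej, hval⟩ := m.hF2 j hi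
      have hM : (∏ k, s.x k ^ a k) ∈ L ∧ (∏ k, s.x k ^ a k)⁻¹ ∈ L := prod_zpow_mem fun k hk => by
        have hkj : k ≠ j := by rintro rfl; exact hk haj
        exact ⟨hxL k, hxiL k hkj⟩
      set M : K := ∏ k, s.x k ^ a k with hMdef
      have hsub : DvdIn L (s.val j) (aeval s.x (s.F i) - aeval s.x (s.restrict i j)) :=
        s.sub_restrict_dvdIn (fun k _ => hxL k) (s.dvdIn_x j)
      have hc0e := s.hatAt_zero (i := i) haj
      set c0 := s.hatAt i a (Function.update s.x j 0) with hc0def
      have hc0L : c0 ∈ L := by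
        rw [hc0e]
        exact L.mul_mem hM.1 (aeval_mem_of_vars fun k _ => hxL k)
      have hdiff : DvdIn L (s.val j) (s.hatAt i a s.x - c0) := by
        have : s.hatAt i a s.x = M * aeval s.x (s.F i) := rfl
        rw [this, hc0e, ← hMdef, ← mul_sub]
        exact hsub.mul_left hM.1
      have hd1 : DvdIn (Loc L hπ) (s.val j) (s.val j - s.G i j a (s'.x i)) := by
        refine aeval_congr_mod _ (fun k _ => hLO (hxL k)) (fun k _ => ?_) (fun k _ => ?_)
        · by_cases hk : k = i
          · subst hk
            rw [Function.update_self, div_eq_mul_inv]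
            exact Subalgebra.mul_mem _ (hLO hc0L) hx'iO
          · rw [Function.update_of_ne hk]; exact hLO (hxL k)
        · by_cases hk : k = i
          · subst hk
            rw [Function.update_self, m.x_i, div_eq_mul_inv, ← sub_mul]
            exact (hdiff.mono hLO).mul_right hx'iO
          · rw [Function.update_of_ne hk, sub_self]; exact dvdIn_zero _ _
      have hd2 : DvdIn (Loc L hπ) (s.val j) (s.G i j a (s'.x i)) := by
        have := (dvdIn_refl (Loc L hπ) (s.val j)).sub hd1
        rwa [sub_sub_cancel] at this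
      have hP := prod_zpow_mem (L := Loc L hπ) (x := s'.x) (a := e) fun k hk => by
        have hkj : k ≠ j := by rintro rfl; exact hk hej
        exact ⟨hLO (hx'L k), hx'O k hkj⟩
      set P : K := ∏ k, s'.x k ^ e k with hPdef
      have hA0 : A ≠ 0 := by
        rintro rfl
        rw [map_zero, zero_mul] at hG
        exact hGne hG
      have hAL : aeval s.x A ∈ L := aeval_mem_of_vars fun k _ => hxL k
      have hAO := inv_mem_Loc hπ hAL (s.not_dvdIn_flip hi hA0 hAi hAj)
      have hA0' : aeval s.x A ≠ 0 := aeval_ne_zero s.indep hA0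
      have hd3 : DvdIn (Loc L hπ) (s.val j) (s'.val j) := by
        have e1 : s'.val j = (aeval s.x A)⁻¹ * (algebraMap R K c * P) * s.G i j a (s'.x i) := by
          rw [hG, hval]
          field_simp
        rw [e1]
        exact hd2.mul_left (Subalgebra.mul_mem _ hAO
          (Subalgebra.mul_mem _ (Subalgebra.algebraMap_mem _ _) hP.1))
      obtain ⟨g, hg, hge⟩ := hd3
      rw [hge, mul_comm, mul_div_assoc, m.hxj j hji]
      exact Subalgebra.mul_mem _ hg (hLO (s.u_mem_flip j))
    · obtain ⟨w, hw, _⟩ := m.case1 hi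
      rw [hw, m.hxj j hji, mul_div_assoc]
      exact Subalgebra.mul_mem _ (Subalgebra.algebraMap_mem _ _) (hLO (s.u_mem_flip j))
  have hB : polyRing R s'.x j (s'.val j / s'.x j) ≤ Loc L hπ :=
    polyRing_le (fun k => hLO (hx'L k)) hu hx'O
  have hfO : f ∈ Loc L hπ :=
    hB (mem_polyRing s'.indep (s'.irreducible j).ne_zero (s'.notMem_vars j) h1 h2)
  obtain ⟨N, hN⟩ := exists_pow_mul_mem s.x_ne (s.val_ne j) (s.val_mem_flip j) h3
  exact mem_of_mem_Loc hπ hfO hN

end

section Upper

variable {R : Type u} {K : Type v} [CommRing R] [Field K] [Algebra R K] {n : ℕ}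

/-- The upper bound of a seed: the elements that are Laurent polynomials in the cluster variables
and in each of the flipped families. -/
noncomputable def upper (s : Seed R K n) : Subalgebra R K := laurent R s.x ⊓ ⨅ j, laurent R (s.flip j)

lemma mem_upper {s : Seed R K n} {f : K} :
    f ∈ s.upper ↔ f ∈ laurent R s.x ∧ ∀ j, f ∈ laurent R (s.flip j) := by
  rw [upper, Algebra.mem_inf, Algebra.mem_iInf]

lemma upper_eq_of_equivalent {s s' : Seed R K n} (h : s.Equivalent s') : s'.upper = s.upper := by
  have h1 : laurent R s'.x = laurent R s.x := laurent_eq_of_units fun k => (h k).1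
  have h2 : ∀ j, laurent R (s'.flip j) = laurent R (s.flip j) := fun j =>
    laurent_eq_of_units fun k => by
      by_cases hk : k = j
      · subst hk
        obtain ⟨⟨w, hw⟩, ⟨w', hw'⟩⟩ := h k
        refine ⟨w' * w⁻¹, ?_⟩
        rw [Seed.flip, Seed.flip, Function.update_self, Function.update_self, hw, hw',
          Units.val_mul, map_mul, ← units_inv_map, div_eq_mul_inv, mul_inv, div_eq_mul_inv]
        ring
      · obtain ⟨⟨w, hw⟩, _⟩ := h k
        refine ⟨w, ?_⟩
        rw [Seed.flip, Seed.flip, Function.update_of_ne hk, Function.update_of_ne hk, hw]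
  rw [upper, upper, h1]
  congr 1
  exact iInf_congr h2

variable [IsDomain R] [UniqueFactorizationMonoid R]

lemma upper_eq_of_isMutation {s s' : Seed R K n} {i : Fin n} (h : s.IsMutation i s') :
    s'.upper = s.upper := by
  obtain ⟨s'', ⟨a, ha, hxi, hxj, hF1, hF2⟩, he⟩ := h
  rw [upper_eq_of_equivalent he]
  have m : Mut s s'' i a := ⟨ha, hxi, hxj, hF1, hF2⟩
  ext f
  rw [mem_upper, mem_upper]
  constructor
  · rintro ⟨h1, h2⟩
    have h3 : f ∈ laurent R s.x := by rw [← m.laurent_flip]; exact h2 i
    refine ⟨h3, fun j => ?_⟩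
    by_cases hj : j = i
    · rw [hj, ← m.laurent_x]; exact h1
    · exact m.backward hj h1 (h2 j) h3
  · rintro ⟨h1, h2⟩
    have h3 : f ∈ laurent R s''.x := by rw [m.laurent_x]; exact h2 i
    refine ⟨h3, fun j => ?_⟩
    by_cases hj : j = i
    · rw [hj, m.laurent_flip]; exact h1
    · exact m.forward hj h1 (h2 j) h3

end Upper

end Seed

end Pool.Agent.K4H83.LP
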