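import Pool.Agent.K4H83.LP.Defs

/-! # Basic facts on the Laurent polynomial rings `laurent R y` -/

namespace Pool.Agent.K4H83.LP

open MvPolynomial

universe u v

section

variable {R : Type u} {K : Type v} [CommRing R] [Field K] [Algebra R K] {n : ℕ}

lemma self_mem_laurent (y : Fin n → K) (k : Fin n) : y k ∈ laurent R y :=
  Algebra.subset_adjoin (Or.inl ⟨k, rfl⟩)

lemma inv_mem_laurent (y : Fin n → K) (k : Fin n) : (y k)⁻¹ ∈ laurent R y :=
  Algebra.subset_adjoin (Or.inr ⟨k, rfl⟩)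

lemma zpow_mem_laurent (y : Fin n → K) (k : Fin n) (m : ℤ) : (y k) ^ m ∈ laurent R y := by
  cases m with
  | ofNat m => simpa using pow_mem (self_mem_laurent y k) m
  | negSucc m =>
    rw [zpow_negSucc, ← inv_pow]
    exact pow_mem (inv_mem_laurent y k) _

lemma prod_zpow_mem_laurent (y : Fin n → K) (a : Fin n → ℤ) : ∏ k, y k ^ a k ∈ laurent R y :=
  Subalgebra.prod_mem _ fun k _ => zpow_mem_laurent y k _

lemma laurent_le {y : Fin n → K} {L : Subalgebra R K} (h1 : ∀ k, y k ∈ L)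
    (h2 : ∀ k, (y k)⁻¹ ∈ L) : laurent R y ≤ L := by
  refine Algebra.adjoin_le ?_
  rintro z (⟨k, rfl⟩ | ⟨k, rfl⟩)
  · exact h1 k
  · exact h2 k

lemma aeval_mem_of_vars {L : Subalgebra R K} {y : Fin n → K} {p : MvPolynomial (Fin n) R}
    (h : ∀ k ∈ p.vars, y k ∈ L) : aeval y p ∈ L := by
  rw [aeval_def, eval₂_eq]
  refine Subalgebra.sum_mem _ fun s hs => Subalgebra.mul_mem _ (Subalgebra.algebraMap_mem _ _) ?_
  refine Subalgebra.prod_mem _ fun k hk => pow_mem (h k ?_) _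
  exact (mem_vars_iff_mem_support k).2 ⟨s, hs, hk⟩

lemma aeval_mem_laurent (y : Fin n → K) (p : MvPolynomial (Fin n) R) :
    aeval y p ∈ laurent R y :=
  aeval_mem_of_vars fun k _ => self_mem_laurent y k

lemma aeval_congr_vars {y y' : Fin n → K} {p : MvPolynomial (Fin n) R}
    (h : ∀ k ∈ p.vars, y k = y' k) : aeval y p = aeval y' p := by
  rw [aeval_def, aeval_def]
  exact eval₂Hom_congr' rfl (fun i hi _ => h i hi) rfl

lemma mem_laurent_iff {y : Fin n → K} (hy : ∀ k, y k ≠ 0) {f : K} :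
    f ∈ laurent R y ↔ ∃ (N : ℕ) (p : MvPolynomial (Fin n) R), f * (∏ k, y k) ^ N = aeval y p := by
  constructor
  · intro hf
    induction hf using Algebra.adjoin_induction with
    | mem z hz =>
      rcases hz with ⟨k, rfl⟩ | ⟨k, rfl⟩
      · exact ⟨0, X k, by simp⟩
      · refine ⟨1, ∏ l ∈ Finset.univ.erase k, X l, ?_⟩
        rw [map_prod, pow_one, ← Finset.mul_prod_erase _ _ (Finset.mem_univ k),
          inv_mul_cancel_left₀ (hy k)]
        simp
    | algebraMap r => exact ⟨0, C r, by simp⟩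
    | add f g _ _ hf hg =>
      obtain ⟨N, p, hp⟩ := hf
      obtain ⟨M, q, hq⟩ := hg
      refine ⟨N + M, p * (∏ k, X k) ^ M + q * (∏ k, X k) ^ N, ?_⟩
      simp only [map_add, map_mul, map_pow, map_prod, aeval_X, ← hp, ← hq]
      ring
    | mul f g _ _ hf hg =>
      obtain ⟨N, p, hp⟩ := hf
      obtain ⟨M, q, hq⟩ := hg
      refine ⟨N + M, p * q, ?_⟩
      simp only [map_mul, ← hp, ← hq]
      ring
  · rintro ⟨N, p, hp⟩
    have hne : (∏ k, y k) ≠ 0 := Finset.prod_ne_zero_iff.2 fun k _ => hy k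
    have : f = aeval y p * (∏ k, (y k)⁻¹) ^ N := by
      rw [← hp, Finset.prod_inv_distrib, inv_pow, mul_assoc, mul_inv_cancel₀ (pow_ne_zero _ hne),
        mul_one]
    rw [this]
    exact Subalgebra.mul_mem _ (aeval_mem_laurent y p)
      (pow_mem (Subalgebra.prod_mem _ fun k _ => inv_mem_laurent y k) _)

/-- Divisibility inside a subalgebra. -/
def DvdIn (L : Subalgebra R K) (a b : K) : Prop := ∃ g ∈ L, b = a * g

/-- `π` is a prime element of the subalgebra `L`. -/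
structure PrimeIn (L : Subalgebra R K) (π : K) : Prop where
  ne_zero : π ≠ 0
  mem : π ∈ L
  not_dvd_one : ¬ DvdIn L π 1
  dvd_or : ∀ f ∈ L, ∀ g ∈ L, DvdIn L π (f * g) → DvdIn L π f ∨ DvdIn L π g

lemma DvdIn.mul_right {L : Subalgebra R K} {a b c : K} (h : DvdIn L a b) (hc : c ∈ L) :
    DvdIn L a (b * c) := by
  obtain ⟨g, hg, rfl⟩ := h
  exact ⟨g * c, L.mul_mem hg hc, by ring⟩

lemma DvdIn.mul_left {L : Subalgebra R K} {a b c : K} (h : DvdIn L a b) (hc : c ∈ L) :
    DvdIn L a (c * b) := by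
  rw [mul_comm]; exact h.mul_right hc

lemma DvdIn.add {L : Subalgebra R K} {a b c : K} (h : DvdIn L a b) (h' : DvdIn L a c) :
    DvdIn L a (b + c) := by
  obtain ⟨g, hg, rfl⟩ := h
  obtain ⟨g', hg', rfl⟩ := h'
  exact ⟨g + g', L.add_mem hg hg', by ring⟩

lemma DvdIn.sub {L : Subalgebra R K} {a b c : K} (h : DvdIn L a b) (h' : DvdIn L a c) :
    DvdIn L a (b - c) := by
  obtain ⟨g, hg, rfl⟩ := h
  obtain ⟨g', hg', rfl⟩ := h'
  exact ⟨g - g', L.sub_mem hg hg', by ring⟩

lemma DvdIn.mono {L L' : Subalgebra R K} (hL : L ≤ L') {a b : K} (h : DvdIn L a b) :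
    DvdIn L' a b := by
  obtain ⟨g, hg, h⟩ := h
  exact ⟨g, hL hg, h⟩

lemma DvdIn.trans {L : Subalgebra R K} {a b c : K} (h : DvdIn L a b) (h' : DvdIn L b c) :
    DvdIn L a c := by
  obtain ⟨g, hg, rfl⟩ := h
  obtain ⟨g', hg', rfl⟩ := h'
  exact ⟨g * g', L.mul_mem hg hg', by ring⟩

lemma dvdIn_zero (L : Subalgebra R K) (a : K) : DvdIn L a 0 := ⟨0, L.zero_mem, by ring⟩

lemma dvdIn_refl (L : Subalgebra R K) (a : K) : DvdIn L a a := ⟨1, L.one_mem, by ring⟩

lemma PrimeIn.pow_dvd {L : Subalgebra R K} {π : K} (hπ : PrimeIn L π) {s : K} (hs : s ∈ L)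
    (hsπ : ¬ DvdIn L π s) (N : ℕ) : ∀ g ∈ L, DvdIn L (π ^ N) (s * g) → DvdIn L (π ^ N) g := by
  induction N with
  | zero => intro g hg _; exact ⟨g, hg, by simp⟩
  | succ N ih =>
    intro g hg h
    obtain ⟨h', hh', e⟩ := h
    have h1 : DvdIn L π (s * g) := ⟨π ^ N * h', L.mul_mem (pow_mem hπ.mem _) hh', by
      rw [e]; ring⟩
    obtain ⟨g', hg', rfl⟩ := (hπ.dvd_or s hs g hg h1).resolve_left hsπ
    have h2 : DvdIn L (π ^ N) (s * g') := ⟨h', hh', by
      have : π * (s * g') = π * (π ^ N * h') := by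
        rw [← mul_assoc, mul_comm π s, mul_assoc, e]; ring
      exact mul_left_cancel₀ hπ.ne_zero this⟩
    obtain ⟨g'', hg'', rfl⟩ := ih g' hg' h2
    exact ⟨g'', hg'', by ring⟩

/-- The localization of `L` at the prime `π`, as a subalgebra of `K`. -/
def Loc (L : Subalgebra R K) {π : K} (hπ : PrimeIn L π) : Subalgebra R K where
  carrier := {f | ∃ s ∈ L, ¬ DvdIn L π s ∧ s * f ∈ L}
  mul_mem' := by
    rintro a b ⟨s, hs, hsπ, hsa⟩ ⟨t, ht, htπ, htb⟩
    refine ⟨s * t, L.mul_mem hs ht, fun h => ?_, ?_⟩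
    · rcases hπ.dvd_or s hs t ht h with h | h
      · exact hsπ h
      · exact htπ h
    · have : s * t * (a * b) = (s * a) * (t * b) := by ring
      rw [this]; exact L.mul_mem hsa htb
  add_mem' := by
    rintro a b ⟨s, hs, hsπ, hsa⟩ ⟨t, ht, htπ, htb⟩
    refine ⟨s * t, L.mul_mem hs ht, fun h => ?_, ?_⟩
    · rcases hπ.dvd_or s hs t ht h with h | h
      · exact hsπ h
      · exact htπ h
    · have : s * t * (a + b) = t * (s * a) + s * (t * b) := by ring
      rw [this]; exact L.add_mem (L.mul_mem ht hsa) (L.mul_mem hs htb)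
  algebraMap_mem' := fun r => ⟨1, L.one_mem, hπ.not_dvd_one, by
    rw [one_mul]; exact L.algebraMap_mem r⟩

lemma le_Loc (L : Subalgebra R K) {π : K} (hπ : PrimeIn L π) : L ≤ Loc L hπ :=
  fun f hf => ⟨1, L.one_mem, hπ.not_dvd_one, by rw [one_mul]; exact hf⟩

lemma inv_mem_Loc {L : Subalgebra R K} {π : K} (hπ : PrimeIn L π) {f : K} (hf : f ∈ L)
    (h : ¬ DvdIn L π f) : f⁻¹ ∈ Loc L hπ := by
  have hf0 : f ≠ 0 := by
    rintro rfl
    exact h (dvdIn_zero L π)
  exact ⟨f, hf, h, by rw [mul_inv_cancel₀ hf0]; exact L.one_mem⟩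

lemma mem_of_mem_Loc {L : Subalgebra R K} {π : K} (hπ : PrimeIn L π) {f : K} (hf : f ∈ Loc L hπ)
    {N : ℕ} (h : π ^ N * f ∈ L) : f ∈ L := by
  obtain ⟨s, hs, hsπ, hsf⟩ := hf
  have h1 : DvdIn L (π ^ N) (s * (π ^ N * f)) := ⟨s * f, hsf, by ring⟩
  obtain ⟨g, hg, e⟩ := hπ.pow_dvd hs hsπ N _ h h1
  have : f = g := mul_left_cancel₀ (pow_ne_zero _ hπ.ne_zero) e
  rw [this]; exact hg

end

section Indep

variable {R : Type u} {K : Type v} [CommRing R] [Field K] [Algebra R K] {n : ℕ}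
  {y : Fin n → K} (hy : AlgebraicIndependent R y)

include hy

lemma indep_ne_zero [Nontrivial R] (k : Fin n) : y k ≠ 0 := hy.ne_zero k

lemma aeval_inj {p q : MvPolynomial (Fin n) R} (h : aeval y p = aeval y q) : p = q :=
  hy h

lemma aeval_ne_zero {p : MvPolynomial (Fin n) R} (h : p ≠ 0) : aeval y p ≠ 0 := by
  intro h'
  exact h (hy (by rw [h', map_zero]))

lemma dvd_of_dvdIn [IsDomain R] {F p : MvPolynomial (Fin n) R}
    (hF : Prime F) (hX : ∀ k, ¬ F ∣ X k) (h : DvdIn (laurent R y) (aeval y F) (aeval y p)) :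
    F ∣ p := by
  obtain ⟨g, hg, e⟩ := h
  obtain ⟨N, q, hq⟩ := (mem_laurent_iff (indep_ne_zero hy)).1 hg
  have h1 : p * (∏ k, X k) ^ N = F * q := by
    apply aeval_inj hy
    rw [map_mul, map_mul, ← hq, e, map_pow, map_prod]
    simp only [aeval_X]
    ring
  rcases hF.dvd_or_dvd (Dvd.intro _ h1.symm) with h2 | h2
  · exact h2
  · obtain ⟨k, _, hk⟩ := hF.exists_mem_finset_dvd (hF.dvd_of_dvd_pow h2)
    exact absurd hk (hX k)

lemma primeIn_laurent [IsDomain R] {F : MvPolynomial (Fin n) R}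
    (hF : Prime F) (hX : ∀ k, ¬ F ∣ X k) : PrimeIn (laurent R y) (aeval y F) where
  ne_zero := aeval_ne_zero hy hF.ne_zero
  mem := aeval_mem_laurent y F
  not_dvd_one := by
    intro h
    have : DvdIn (laurent R y) (aeval y F) (aeval y (1 : MvPolynomial (Fin n) R)) := by simpa using h
    exact hF.not_isUnit (isUnit_of_dvd_one (dvd_of_dvdIn hy hF hX this))
  dvd_or := by
    intro f hf g hg h
    have hne : (∏ k, y k) ≠ 0 := Finset.prod_ne_zero_iff.2 fun k _ => indep_ne_zero hy k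
    obtain ⟨N, p, hp⟩ := (mem_laurent_iff (indep_ne_zero hy)).1 hf
    obtain ⟨M, q, hq⟩ := (mem_laurent_iff (indep_ne_zero hy)).1 hg
    have hm : ∀ k : ℕ, (∏ k, y k) ^ k ∈ laurent R y := fun k =>
      pow_mem (Subalgebra.prod_mem _ fun k _ => self_mem_laurent y k) _
    have hmi : ∀ k : ℕ, ((∏ k, y k) ^ k)⁻¹ ∈ laurent R y := fun k => by
      rw [← inv_pow, ← Finset.prod_inv_distrib]
      exact pow_mem (Subalgebra.prod_mem _ fun k _ => inv_mem_laurent y k) _
    have h1 : DvdIn (laurent R y) (aeval y F) (aeval y (p * q)) := by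
      rw [map_mul, ← hp, ← hq]
      have : f * (∏ k, y k) ^ N * (g * (∏ k, y k) ^ M)
        = f * g * ((∏ k, y k) ^ N * (∏ k, y k) ^ M) := by ring
      rw [this]
      exact h.mul_right ((laurent R y).mul_mem (hm _) (hm _))
    rcases hF.dvd_or_dvd (dvd_of_dvdIn hy hF hX h1) with ⟨r, hr⟩ | ⟨r, hr⟩
    · left
      refine ⟨aeval y r * ((∏ k, y k) ^ N)⁻¹,
        (laurent R y).mul_mem (aeval_mem_laurent _ _) (hmi _), ?_⟩
      rw [← mul_assoc, ← map_mul, ← hr, ← hp, mul_assoc, mul_inv_cancel₀ (pow_ne_zero _ hne),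
        mul_one]
    · right
      refine ⟨aeval y r * ((∏ k, y k) ^ M)⁻¹,
        (laurent R y).mul_mem (aeval_mem_laurent _ _) (hmi _), ?_⟩
      rw [← mul_assoc, ← map_mul, ← hr, ← hq, mul_assoc, mul_inv_cancel₀ (pow_ne_zero _ hne),
        mul_one]

/-- Transfer: an element of `laurent R y` which is a quotient of polynomials not involving `y_i`
lies in `laurent R y'` for every `y'` agreeing with `y` away from `i`. -/
lemma transfer [IsDomain R] {y' : Fin n → K} (hy' : ∀ k, y' k ≠ 0) {i : Fin n}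
    (hyy : ∀ k, k ≠ i → y' k = y k) {g : K} (hg : g ∈ laurent R y)
    {A B : MvPolynomial (Fin n) R} (hA : i ∉ A.vars) (hB : i ∉ B.vars) (hA0 : A ≠ 0)
    (h : g * aeval y A = aeval y B) : g ∈ laurent R y' := by
  obtain ⟨N, p, hp⟩ := (mem_laurent_iff (indep_ne_zero hy)).1 hg
  have h1 : p * A = B * (∏ k, X k) ^ N := by
    apply aeval_inj hy
    rw [map_mul, map_mul, ← hp, ← h, map_pow, map_prod]
    simp only [aeval_X]
    ring
  have hA' : aeval y' A = aeval y A := aeval_congr_vars fun k hk => hyy k fun e => hA (e ▸ hk)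
  have hB' : aeval y' B = aeval y B := aeval_congr_vars fun k hk => hyy k fun e => hB (e ▸ hk)
  have h2 : aeval y' p * aeval y A = g * aeval y A * (∏ k, y' k) ^ N := by
    have := congrArg (aeval y') h1
    rw [map_mul, map_mul, hA', hB', map_pow, map_prod] at this
    simp only [aeval_X] at this
    rw [this, h]
  refine (mem_laurent_iff hy').2 ⟨N, p, ?_⟩
  refine mul_right_cancel₀ (aeval_ne_zero hy hA0) ?_
  rw [h2]; ring

/-- Replacing `y_j` by `F(y) / y_j`, with `F ≠ 0` not involving `X_j`, keeps algebraic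
independence. -/
lemma indep_update [IsDomain R] {F : MvPolynomial (Fin n) R} (hF : F ≠ 0) {j : Fin n}
    (hj : j ∉ F.vars) : AlgebraicIndependent R (Function.update y j (aeval y F / y j)) := by
  have h0 := (AlgebraicIndependent.iff_transcendental_adjoin_image j).1 hy
  rw [AlgebraicIndependent.iff_transcendental_adjoin_image j]
  have e1 : (fun k : {k // k ≠ j} => Function.update y j (aeval y F / y j) k)
      = fun k : {k // k ≠ j} => y k := by
    funext k
    exact Function.update_of_ne k.2 _ _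
  have e2 : Function.update y j (aeval y F / y j) '' {j}ᶜ = y '' {j}ᶜ := by
    apply Set.image_congr
    intro k hk
    exact Function.update_of_ne hk _ _
  rw [e1, e2, Function.update_self]
  refine ⟨h0.1, fun halg => h0.2 ?_⟩
  have hFm : aeval y F ∈ Algebra.adjoin R (y '' {j}ᶜ) :=
    aeval_mem_of_vars fun k hk => Algebra.subset_adjoin ⟨k, fun e => hj (e ▸ hk), rfl⟩
  have hF1 : IsAlgebraic (Algebra.adjoin R (y '' {j}ᶜ)) (aeval y F) :=
    isAlgebraic_algebraMap (⟨aeval y F, hFm⟩ : Algebra.adjoin R (y '' {j}ᶜ))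
  have : y j = aeval y F * (aeval y F / y j)⁻¹ := by
    rw [inv_div, mul_div_cancel₀ _ (aeval_ne_zero hy hF)]
  rw [this]
  exact hF1.mul halg.inv

end Indep

end Pool.Agent.K4H83.LP
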