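import Mathlib

/-! # Principal minors and the degree argument -/

namespace Pool.Agent.K4H83.LP

open Polynomial

section Minor

variable {B B' : Type*} [CommRing B] [CommRing B'] {n : ℕ}

/-- The matrix whose rows in `J` are those of `diag(Y) - c` and whose other rows are unit
vectors; its determinant is the principal minor of `diag(Y) - c` on `J`. -/
def minorMatrix (Y : Fin n → B) (c : Fin n → Fin n → B) (J : Finset (Fin n)) :
    Matrix (Fin n) (Fin n) B := fun i l =>
  if i ∈ J then (if l = i then Y i else - c i l) else (if l = i then 1 else 0)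

/-- The principal minor. -/
noncomputable def minor (Y : Fin n → B) (c : Fin n → Fin n → B) (J : Finset (Fin n)) : B :=
  (minorMatrix Y c J).det

lemma minor_map (f : B →+* B') (Y : Fin n → B) (c : Fin n → Fin n → B) (J : Finset (Fin n)) :
    f (minor Y c J) = minor (fun i => f (Y i)) (fun i l => f (c i l)) J := by
  rw [minor, minor, RingHom.map_det]
  congr 1
  ext i l
  rw [RingHom.mapMatrix_apply, Matrix.map_apply, minorMatrix, minorMatrix]
  split_ifs <;> simp

lemma minor_empty (Y : Fin n → B) (c : Fin n → Fin n → B) : minor Y c ∅ = 1 := by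
  have : minorMatrix Y c ∅ = 1 := by
    ext i l
    rw [minorMatrix, if_neg (Finset.notMem_empty i), Matrix.one_apply]
    by_cases h : l = i
    · rw [if_pos h, if_pos h.symm]
    · rw [if_neg h, if_neg (Ne.symm h)]
  rw [minor, this, Matrix.det_one]

/-- Expansion of the principal minor along the diagonal entry at `j`. -/
lemma minor_expand (Y : Fin n → B) (c : Fin n → Fin n → B) {J : Finset (Fin n)} {j : Fin n}
    (hj : j ∈ J) :
    minor Y c J = Y j * minor Y c (J.erase j) +
      ((minorMatrix Y c (J.erase j)).updateRow j (fun l => if l = j then 0 else - c j l)).det := by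
  have h1 : minorMatrix Y c J = (minorMatrix Y c (J.erase j)).updateRow j
      (Y j • (minorMatrix Y c (J.erase j)) j + fun l => if l = j then 0 else - c j l) := by
    ext i l
    by_cases hi : i = j
    · subst hi
      rw [Matrix.updateRow_self, Pi.add_apply, Pi.smul_apply, minorMatrix, minorMatrix,
        if_pos hj, if_neg (Finset.notMem_erase _ _)]
      by_cases hl : l = i
      · simp [hl]
      · simp [hl]
    · rw [Matrix.updateRow_ne hi, minorMatrix, minorMatrix]
      simp [Finset.mem_erase, hi]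
  rw [minor, h1, Matrix.det_updateRow_add, Matrix.det_updateRow_smul, Matrix.updateRow_eq_self,
    minor]

end Minor

section Deg

variable {Φ : Type*} [Field Φ] {n : ℕ}

lemma det_const {N : Matrix (Fin n) (Fin n) Φ[X]} (h : ∀ i l, ∃ b, N i l = C b) :
    ∃ b, N.det = C b := by
  choose b hb using h
  refine ⟨(Matrix.of b).det, ?_⟩
  rw [RingHom.map_det]
  congr 1
  ext i l : 1
  rw [hb]
  rfl

lemma minor_const {Y : Fin n → Φ[X]} {c : Fin n → Fin n → Φ[X]} {J : Finset (Fin n)}
    (hY : ∀ i ∈ J, ∃ b, Y i = C b) (hc : ∀ i l, ∃ b, c i l = C b) : ∃ b, minor Y c J = C b := by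
  refine det_const fun i l => ?_
  rw [minorMatrix]
  split_ifs with h1 h2 h2
  · exact hY i h1
  · obtain ⟨b, hb⟩ := hc i l
    exact ⟨-b, by rw [hb, C_neg]⟩
  · exact ⟨1, by rw [C_1]⟩
  · exact ⟨0, by rw [C_0]⟩

/-- The degree argument. -/
lemma degree_argument {X Y : Fin n → Φ[X]} {a : Fin n → Φ} {c : Fin n → Fin n → Φ}
    (h : ∀ i, Y i * X i = C (a i) + ∑ l ∈ Finset.univ.erase i, C (c i l) * X l)
    (hX : ∀ i, X i ≠ 0) {m : ℕ} (hm1 : 1 ≤ m) (hm : ∀ i, (X i).natDegree ≤ m)
    {i₀ : Fin n} (hi₀ : (X i₀).natDegree = m) :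
    (∀ i, (X i).natDegree = m → ∃ b, Y i = C b) ∧
      minor Y (fun i l => C (c i l)) (Finset.univ.filter fun i => (X i).natDegree = m) = 0 := by
  have hconst : ∀ i, (X i).natDegree = m → Y i = C ((Y i).coeff 0) := by
    intro i hi
    by_cases hY : Y i = 0
    · rw [hY]; simp
    · apply eq_C_of_natDegree_eq_zero
      have h1 : (Y i * X i).natDegree ≤ m := by
        rw [h i]
        refine (natDegree_add_le _ _).trans (max_le (by simp) ?_)
        refine natDegree_sum_le_of_forall_le _ _ fun l _ => ?_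
        exact (natDegree_C_mul_le _ _).trans (hm l)
      rw [natDegree_mul hY (hX i), hi] at h1
      omega
  refine ⟨fun i hi => ⟨_, hconst i hi⟩, ?_⟩
  rw [minor, ← Matrix.exists_mulVec_eq_zero_iff]
  refine ⟨fun l => C ((X l).coeff m), fun h0 => ?_, ?_⟩
  · have := congrFun h0 i₀
    simp only [Pi.zero_apply, C_eq_zero] at this
    rw [← hi₀, coeff_natDegree, leadingCoeff_eq_zero] at this
    exact hX i₀ this
  · ext1 i
    rw [Matrix.mulVec, Pi.zero_apply]
    change ∑ l, minorMatrix Y (fun i l => C (c i l)) _ i l * C ((X l).coeff m) = 0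
    by_cases hi : (X i).natDegree = m
    · have e1 : ∀ l, minorMatrix Y (fun i l => C (c i l))
          (Finset.univ.filter fun i => (X i).natDegree = m) i l * C ((X l).coeff m)
          = if l = i then Y i * C ((X l).coeff m) else - (C (c i l) * C ((X l).coeff m)) := by
        intro l
        rw [minorMatrix, if_pos (by simpa using hi)]
        split_ifs <;> ring
      rw [Finset.sum_congr rfl fun l _ => e1 l, ← Finset.add_sum_erase _ _ (Finset.mem_univ i),
        if_pos rfl]
      have e2 : ∑ l ∈ Finset.univ.erase i,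
          (if l = i then Y i * C ((X l).coeff m) else - (C (c i l) * C ((X l).coeff m)))
          = - C (∑ l ∈ Finset.univ.erase i, c i l * (X l).coeff m) := by
        rw [map_sum, ← Finset.sum_neg_distrib]
        refine Finset.sum_congr rfl fun l hl => ?_
        rw [if_neg (Finset.ne_of_mem_erase hl), C_mul]
      rw [e2, hconst i hi, ← C_mul, ← sub_eq_add_neg, ← C_sub, C_eq_zero, sub_eq_zero]
      have h2 := congrArg (fun P : Φ[X] => P.coeff m) (h i)
      simp only [coeff_add, finsetSum_coeff, coeff_C_mul] at h2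
      rw [hconst i hi, coeff_C_mul, coeff_C, if_neg (by omega), zero_add] at h2
      exact h2
    · have hlt : (X i).natDegree < m := lt_of_le_of_ne (hm i) hi
      rw [Finset.sum_eq_single i]
      · rw [coeff_eq_zero_of_natDegree_lt hlt, C_0, mul_zero]
      · intro l _ hl
        rw [minorMatrix, if_neg (by simpa using hi), if_neg hl, zero_mul]
      · intro h; exact absurd (Finset.mem_univ i) h

end Deg

section Abstract

universe u v w z

variable {R : Type u} {B : Type v} {Φ : Type w} [CommRing R] [CommRing B] [Nontrivial B]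
  [Algebra R B] [Field Φ] [Algebra R Φ] {n : ℕ}

/-- The algebraic heart of the argument. -/
theorem abstract_dichotomy (x Y : Fin n → B) (a : Fin n → R) (c : Fin n → Fin n → R)
    (hrel : ∀ i, Y i * x i = algebraMap R B (a i) +
      ∑ l ∈ Finset.univ.erase i, algebraMap R B (c i l) * x l)
    (ρ : B →ₐ[R] Φ[X]) (hx : ∀ i, ρ (x i) ≠ 0) (hdeg : ∃ i, 1 ≤ (ρ (x i)).natDegree)
    (hσ : ∀ j, ∃ (Ψ : Type z) (_ : Field Ψ) (_ : Algebra R Ψ) (σ : B →ₐ[R] Ψ[X]),
      (∀ f, σ f = 0 → ∃ g, f = x j * g) ∧ σ (Y j) = X ∧ ∀ i, i ≠ j → ∃ b, σ (Y i) = C b) :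
    ∃ J : Finset (Fin n), minor Y (fun i l => algebraMap R B (c i l)) J ≠ 0 ∧
      ρ (minor Y (fun i l => algebraMap R B (c i l)) J) = 0 := by
  classical
  set y : Finset (Fin n) → B := fun J => minor Y (fun i l => algebraMap R B (c i l)) J with hy
  obtain ⟨i₁, hi₁⟩ := hdeg
  obtain ⟨i₀, _, hi₀⟩ := Finset.exists_max_image Finset.univ
    (fun i => (ρ (x i)).natDegree) ⟨i₁, Finset.mem_univ i₁⟩
  set m := (ρ (x i₀)).natDegree with hm
  have hm1 : 1 ≤ m := hi₁.trans (hi₀ i₁ (Finset.mem_univ i₁))
  have hρc : ∀ r : R, ρ (algebraMap R B r) = C (algebraMap R Φ r) := fun r => ρ.commutes r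
  have hrel' : ∀ i, ρ (Y i) * ρ (x i) = C (algebraMap R Φ (a i)) +
      ∑ l ∈ Finset.univ.erase i, C (algebraMap R Φ (c i l)) * ρ (x l) := by
    intro i
    rw [← map_mul, hrel i, map_add, map_sum, hρc]
    congr 1
    refine Finset.sum_congr rfl fun l _ => ?_
    rw [map_mul, hρc]
  obtain ⟨hYc, hdet⟩ := degree_argument (X := fun i => ρ (x i)) (Y := fun i => ρ (Y i))
    hrel' hx hm1 (fun i => hi₀ i (Finset.mem_univ i)) (i₀ := i₀) rfl
  set I := Finset.univ.filter fun i => (ρ (x i)).natDegree = m with hI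
  have hρy : ∀ J, ρ (y J) = minor (fun i => ρ (Y i))
      (fun i l => C (algebraMap R Φ (c i l))) J := by
    intro J
    have := minor_map (ρ : B →+* Φ[X]) Y (fun i j => algebraMap R B (c i j)) J
    have e2 : (fun i l => (ρ : B →+* Φ[X]) (algebraMap R B (c i l)))
        = fun i l => C (algebraMap R Φ (c i l)) := by
      funext i l
      exact hρc _
    rw [e2] at this
    exact this
  have hI0 : ρ (y I) = 0 := by rw [hρy]; exact hdet
  by_cases hyI : y I ≠ 0
  · exact ⟨I, hyI, hI0⟩
  push Not at hyI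
  -- minimal vanishing subset
  have hex : ∃ J ⊆ I, y J = 0 ∧ ∀ j ∈ J, y (J.erase j) ≠ 0 := by
    have key : ∀ (m : ℕ) (J : Finset (Fin n)), J.card = m → J ⊆ I → y J = 0 →
        ∃ J ⊆ I, y J = 0 ∧ ∀ j ∈ J, y (J.erase j) ≠ 0 := by
      intro m
      induction m with
      | zero =>
        intro J hJ hJI h0
        rw [Finset.card_eq_zero] at hJ
        subst hJ
        exact ⟨∅, hJI, h0, fun j hj => absurd hj (Finset.notMem_empty j)⟩
      | succ m ih =>
        intro J hJ hJI h0
        by_cases hall : ∀ j ∈ J, y (J.erase j) ≠ 0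
        · exact ⟨J, hJI, h0, hall⟩
        · push Not at hall
          obtain ⟨j, hj, hj0⟩ := hall
          exact ih (J.erase j) (by rw [Finset.card_erase_of_mem hj, hJ]; rfl)
            ((Finset.erase_subset _ _).trans hJI) hj0
    exact key I.card I rfl (Finset.Subset.refl _) hyI
  obtain ⟨J', hJ'I, hJ'0, hmin⟩ := hex
  have hJ'ne : J'.Nonempty := by
    rw [Finset.nonempty_iff_ne_empty]
    rintro rfl
    rw [hy] at hJ'0
    simp only [minor_empty] at hJ'0
    exact one_ne_zero hJ'0
  obtain ⟨j, hj⟩ := hJ'ne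
  have hyJ : y (J'.erase j) ≠ 0 := hmin j hj
  -- reduction modulo the initial variable `x_j`
  obtain ⟨Ψ, _, _, σ, hσker, hσu, hσY⟩ := hσ j
  have hσc : ∀ r : R, σ (algebraMap R B r) = C (algebraMap R Ψ r) := fun r => σ.commutes r
  have hexp := minor_expand Y (fun i j => algebraMap R B (c i j)) hj
  have hyJ' : minor Y (fun i j => algebraMap R B (c i j)) J' = y J' := rfl
  have hyJ'' : minor Y (fun i j => algebraMap R B (c i j)) (J'.erase j) = y (J'.erase j) := rfl
  rw [hyJ', hyJ'', hJ'0] at hexp
  set D : B := ((minorMatrix Y (fun i j => algebraMap R B (c i j))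
      (J'.erase j)).updateRow j (fun l => if l = j then 0 else - algebraMap R B (c j l))).det
    with hD
  have hσ1 : ∃ b, σ (y (J'.erase j)) = C b := by
    have := minor_map (σ : B →+* Ψ[X]) Y (fun i j => algebraMap R B (c i j)) (J'.erase j)
    obtain ⟨b, hb⟩ := minor_const (Y := fun i => σ (Y i))
      (c := fun i l => σ (algebraMap R B (c i l))) (J := J'.erase j)
      (fun i hi => hσY i (Finset.ne_of_mem_erase hi)) (fun i l => ⟨_, hσc _⟩)
    exact ⟨b, by rw [← hb]; exact this⟩
  have hσ2 : ∃ b, σ D = C b := by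
    have h1 := RingHom.map_det (σ : B →+* Ψ[X]) ((minorMatrix Y (fun i j => algebraMap R B (c i j))
      (J'.erase j)).updateRow j (fun l => if l = j then 0 else - algebraMap R B (c j l)))
    obtain ⟨b, hb⟩ := det_const (N := (σ : B →+* Ψ[X]).mapMatrix
      ((minorMatrix Y (fun i j => algebraMap R B (c i j))
      (J'.erase j)).updateRow j (fun l => if l = j then 0 else - algebraMap R B (c j l)))) (by
      intro i l
      rw [RingHom.mapMatrix_apply, Matrix.map_apply]
      by_cases hi : i = j
      · subst hi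
        rw [Matrix.updateRow_self]
        by_cases hl : l = i
        · exact ⟨0, by rw [if_pos hl, map_zero, C_0]⟩
        · refine ⟨- algebraMap R Ψ (c i l), ?_⟩
          rw [if_neg hl, map_neg, C_neg]
          congr 1
          exact hσc _
      · rw [Matrix.updateRow_ne hi, minorMatrix]
        by_cases h1 : i ∈ J'.erase j
        · rw [if_pos h1]
          by_cases h2 : l = i
          · rw [if_pos h2]; exact hσY i hi
          · refine ⟨- algebraMap R Ψ (c i l), ?_⟩
            rw [if_neg h2, map_neg, C_neg]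
            congr 1
            exact hσc _
        · rw [if_neg h1]
          by_cases h2 : l = i
          · exact ⟨1, by rw [if_pos h2, map_one, C_1]⟩
          · exact ⟨0, by rw [if_neg h2, map_zero, C_0]⟩)
    refine ⟨b, ?_⟩
    rw [← hb, ← h1]
    rfl
  obtain ⟨b1, hb1⟩ := hσ1
  obtain ⟨b2, hb2⟩ := hσ2
  have hb10 : b1 = 0 := by
    have h1 := congrArg σ hexp
    rw [map_zero, map_add, map_mul, hσu, hb1, hb2] at h1
    have h3 := congrArg (fun P : Ψ[X] => P.coeff 1) h1
    simp only [coeff_zero, coeff_add, coeff_X_mul, coeff_C_zero, coeff_C_succ, add_zero] at h3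
    exact h3.symm
  rw [hb10, C_0] at hb1
  obtain ⟨g, hyg⟩ := hσker _ hb1
  have hconst : ∃ b, ρ (y (J'.erase j)) = C b := by
    rw [hρy]
    refine minor_const (fun i hi => ?_) (fun i l => ⟨_, rfl⟩)
    have hiI : i ∈ I := hJ'I (Finset.mem_of_mem_erase hi)
    exact hYc i (Finset.mem_filter.1 hiI).2
  have hjI : (ρ (x j)).natDegree = m := (Finset.mem_filter.1 (hJ'I hj)).2
  have hρ0 : ρ (y (J'.erase j)) = 0 := by
    by_contra hne0
    obtain ⟨b, hb⟩ := hconst
    have h1 : (ρ (y (J'.erase j))).natDegree = 0 := by rw [hb, natDegree_C]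
    rw [hyg, map_mul] at h1 hne0
    rw [natDegree_mul (left_ne_zero_of_mul hne0) (right_ne_zero_of_mul hne0), hjI] at h1
    omega
  exact ⟨J'.erase j, hyJ, hρ0⟩

end Abstract

end Pool.Agent.K4H83.LP
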