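import Pool.Agent.K4H83.LP.Place
import Pool.Agent.K4H83.LP.Minors

/-! # Cluster variables of a linear LP algebra divide a fixed element -/

namespace Pool.Agent.K4H83.LP

open MvPolynomial

universe u v

namespace Seed

variable {R : Type u} {K : Type v} [CommRing R] [IsDomain R] [UniqueFactorizationMonoid R]
  [Field K] [Algebra R K] {n : ℕ}

lemma primeIn_upper (s : Seed R K n) (k : Fin n) : PrimeIn s.upper (s.x k) := by
  obtain ⟨Φ, _, _, ρ, hker, hk, hu, hl⟩ := s.exists_place k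
  have hdvd : ∀ f : s.upper, DvdIn s.upper (s.x k) (f : K) → ρ f = 0 := by
    rintro f ⟨g, hg, e⟩
    have : f = ⟨s.x k, s.x_mem_upper k⟩ * ⟨g, hg⟩ := Subtype.ext e
    rw [this, map_mul, hk, zero_mul]
  have hdvd' : ∀ f : s.upper, ρ f = 0 → DvdIn s.upper (s.x k) (f : K) := fun f hf => by
    obtain ⟨g, hg⟩ := hker f hf
    exact ⟨g, g.2, hg⟩
  refine ⟨s.x_ne k, s.x_mem_upper k, fun h => ?_, fun f hf g hg h => ?_⟩
  · have := hdvd 1 h
    rw [map_one] at this
    exact one_ne_zero this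
  · have h1 := hdvd (⟨f, hf⟩ * ⟨g, hg⟩) h
    rw [map_mul] at h1
    rcases mul_eq_zero.1 h1 with h2 | h2
    · exact Or.inl (hdvd' _ h2)
    · exact Or.inr (hdvd' _ h2)

lemma not_dvdIn_upper_x (s : Seed R K n) {k l : Fin n} (h : l ≠ k) :
    ¬ DvdIn s.upper (s.x k) (s.x l) := by
  obtain ⟨Φ, _, _, ρ, hker, hk, hu, hl⟩ := s.exists_place k
  rintro ⟨g, hg, e⟩
  obtain ⟨c, hc, hc'⟩ := hl l h
  have : (⟨s.x l, s.x_mem_upper l⟩ : s.upper) = ⟨s.x k, s.x_mem_upper k⟩ * ⟨g, hg⟩ :=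
    Subtype.ext e
  rw [this, map_mul, hk, zero_mul] at hc'
  exact hc (Polynomial.C_eq_zero.1 hc'.symm)

/-- The seed has linear exchange polynomials with the given coefficients. -/
def LinearWith (s : Seed R K n) (a : Fin n → R) (c : Fin n → Fin n → R) : Prop :=
  ∀ i, s.F i = C (a i) + ∑ j ∈ Finset.univ.erase i, C (c i j) * X j

/-- The element `F_i / x_i` of the upper bound. -/
noncomputable def Y (s : Seed R K n) (i : Fin n) : s.upper := ⟨s.val i / s.x i, s.u_mem_upper i⟩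

/-- The cluster variable in the upper bound. -/
noncomputable def X' (s : Seed R K n) (i : Fin n) : s.upper := ⟨s.x i, s.x_mem_upper i⟩

/-- The principal minor on `J`, as an element of the upper bound. -/
noncomputable def y (s : Seed R K n) (c : Fin n → Fin n → R) (J : Finset (Fin n)) : s.upper :=
  minor s.Y (fun i j => algebraMap R s.upper (c i j)) J

lemma coe_aeval (s : Seed R K n) (p : MvPolynomial (Fin n) R) :
    ((aeval s.X' p : s.upper) : K) = aeval s.x p := by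
  have : s.upper.val.comp (aeval s.X') = aeval s.x := by
    apply MvPolynomial.algHom_ext
    intro k
    simp [X']
  rw [← this]; rfl

lemma Y_mul_X' (s : Seed R K n) (i : Fin n) : s.Y i * s.X' i = aeval s.X' (s.F i) := by
  apply Subtype.ext
  rw [coe_aeval]
  exact div_mul_cancel₀ _ (s.x_ne i)

lemma linear_rel {s : Seed R K n} {a : Fin n → R} {c : Fin n → Fin n → R}
    (h : s.LinearWith a c) (i : Fin n) :
    s.Y i * s.X' i = algebraMap R _ (a i) +
      ∑ j ∈ Finset.univ.erase i, algebraMap R _ (c i j) * s.X' j := by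
  rw [Y_mul_X', h i]
  simp [aeval_C]

/-- Constants. -/
lemma const_aeval {Φ : Type*} [Field Φ] [Algebra R Φ] {x : Fin n → Polynomial Φ}
    {b : Fin n → Φ} (hb : ∀ i, x i = Polynomial.C (b i)) (p : MvPolynomial (Fin n) R) :
    aeval x p = Polynomial.C (aeval b p) := by
  have h1 : x = fun i => Polynomial.C (b i) := funext hb
  have : (aeval x : MvPolynomial (Fin n) R →ₐ[R] _)
      = (Polynomial.CAlgHom : Φ →ₐ[R] Polynomial Φ).comp (aeval b) := by
    apply MvPolynomial.algHom_ext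
    intro l
    rw [h1]
    simp
  rw [this]; rfl

/-- The reduction modulo `x_j` of the initial seed maps `F_i / x_i`, `i ≠ j`, to a constant. -/
lemma Y_const (s : Seed R K n) {j : Fin n} {Φ : Type u} [Field Φ] [Algebra R Φ]
    (ρ : s.upper →ₐ[R] Polynomial Φ) (hj : ρ (s.X' j) = 0)
    (hl : ∀ l, l ≠ j → ∃ c : Φ, c ≠ 0 ∧ ρ (s.X' l) = Polynomial.C c) {i : Fin n} (hi : i ≠ j) :
    ∃ b, ρ (s.Y i) = Polynomial.C b := by
  have hc : ∀ l, ∃ b : Φ, ρ (s.X' l) = Polynomial.C b := fun l => by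
    by_cases h : l = j
    · exact ⟨0, by rw [h, hj, Polynomial.C_0]⟩
    · obtain ⟨c, _, hc⟩ := hl l h
      exact ⟨c, hc⟩
  choose b hb using hc
  obtain ⟨c, hc0, hc⟩ := hl i hi
  have h1 := congrArg ρ (s.Y_mul_X' i)
  rw [map_mul, hc] at h1
  have h2 : ρ (aeval s.X' (s.F i)) = aeval (fun l => ρ (s.X' l)) (s.F i) := by
    have : ρ.comp (aeval s.X') = aeval (fun l => ρ (s.X' l)) := by
      apply MvPolynomial.algHom_ext
      intro l
      simp
    rw [← this]; rfl
  rw [h2, const_aeval hb] at h1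
  refine ⟨aeval b (s.F i) * c⁻¹, ?_⟩
  rw [Polynomial.C_mul, ← h1, mul_assoc, ← Polynomial.C_mul, mul_inv_cancel₀ hc0,
    Polynomial.C_1, mul_one]

/-- Some initial variable has positive degree under a reduction that hits the variable. -/
lemma exists_deg {U : Subalgebra R K} {x : Fin n → K} (hx0 : ∀ k, x k ≠ 0)
    (x' : Fin n → U) (hx' : ∀ k, (x' k : K) = x k) (hUL : U ≤ laurent R x)
    {Φ : Type u} [Field Φ] [Algebra R Φ] (ρ : U →ₐ[R] Polynomial Φ) (hne : ∀ i, ρ (x' i) ≠ 0)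
    (t : U) (ht : ρ t = Polynomial.X) : ∃ i, 1 ≤ (ρ (x' i)).natDegree := by
  by_contra hlt
  push Not at hlt
  have hb : ∀ i, ρ (x' i) = Polynomial.C ((ρ (x' i)).coeff 0) := fun i =>
    Polynomial.eq_C_of_natDegree_eq_zero (by have := hlt i; omega)
  obtain ⟨N, p, hp⟩ := (mem_laurent_iff hx0).1 (hUL t.2)
  have hcoe : ((aeval x' p : U) : K) = aeval x p := by
    have : U.val.comp (aeval x') = aeval x := by
      apply MvPolynomial.algHom_ext
      intro k
      rw [AlgHom.comp_apply, aeval_X, aeval_X]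
      exact hx' k
    rw [← this]; rfl
  have h1 : t * (∏ l, x' l) ^ N = aeval x' p := by
    apply Subtype.ext
    rw [hcoe, ← hp, ← Finset.prod_congr rfl fun k _ => hx' k]
    push_cast
    rfl
  have h2 := congrArg ρ h1
  have h3 : ρ (aeval x' p) = aeval (fun l => ρ (x' l)) p := by
    have : ρ.comp (aeval x') = aeval (fun l => ρ (x' l)) := by
      apply MvPolynomial.algHom_ext
      intro l
      rw [AlgHom.comp_apply, aeval_X, aeval_X]
    rw [← this]; rfl
  rw [map_mul, ht, map_pow, map_prod, h3, const_aeval hb] at h2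
  have h4 : ∏ l, ρ (x' l) = Polynomial.C (∏ l, (ρ (x' l)).coeff 0) := by
    rw [map_prod]
    exact Finset.prod_congr rfl fun l _ => hb l
  have h5 : (∏ l, (ρ (x' l)).coeff 0) ≠ 0 := by
    refine Finset.prod_ne_zero_iff.2 fun l _ h => hne l ?_
    rw [hb l, h, Polynomial.C_0]
  rw [h4, ← map_pow] at h2
  have h6 := congrArg (fun P : Polynomial Φ => P.coeff 1) h2
  simp only [Polynomial.coeff_C_succ] at h6
  have h7 : (Polynomial.X * Polynomial.C ((∏ l, (ρ (x' l)).coeff 0) ^ N)).coeff 1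
      = (∏ l, (ρ (x' l)).coeff 0) ^ N := by
    rw [Polynomial.coeff_X_mul, Polynomial.coeff_C_zero]
  rw [h7] at h6
  exact pow_ne_zero _ h5 h6

lemma exists_place' (s : Seed R K n) (k : Fin n) {U : Subalgebra R K} (hU : s.upper = U) :
    ∃ (Φ : Type u) (_ : Field Φ) (_ : Algebra R Φ) (ρ : U →ₐ[R] Polynomial Φ),
      (∀ f : U, ρ f = 0 → DvdIn U (s.x k) f) ∧ ∃ t, ρ t = Polynomial.X := by
  subst hU
  obtain ⟨Φ, i1, i2, ρ, hker, hk, hu, hl⟩ := s.exists_place k
  refine ⟨Φ, i1, i2, ρ, fun f hf => ?_, _, hu⟩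
  obtain ⟨g, hg⟩ := hker f hf
  exact ⟨g, g.2, hg⟩

/-- The main dichotomy: a cluster variable of a seed with the same upper bound as a linear seed
divides an initial cluster variable or a nonzero principal minor. -/
theorem dichotomy {s₀ s : Seed R K n} {a : Fin n → R} {c : Fin n → Fin n → R}
    (h : s₀.LinearWith a c) (hU : s.upper = s₀.upper) (k : Fin n) :
    (∃ j, DvdIn s₀.upper (s.x k) (s₀.x j)) ∨
    ∃ J : Finset (Fin n), s₀.y c J ≠ 0 ∧ DvdIn s₀.upper (s.x k) (s₀.y c J) := by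
  obtain ⟨Φ, _, _, ρ, hker, t, ht⟩ := s.exists_place' k hU
  by_cases hcase : ∃ j, ρ (s₀.X' j) = 0
  · obtain ⟨j, hj⟩ := hcase
    exact Or.inl ⟨j, hker _ hj⟩
  right
  push Not at hcase
  have hm1 : ∃ i, 1 ≤ (ρ (s₀.X' i)).natDegree :=
    exists_deg s₀.x_ne s₀.X' (fun _ => rfl) (fun _ hf => (mem_upper.1 hf).1) ρ hcase t ht
  obtain ⟨J, hJ, hJ0⟩ := abstract_dichotomy s₀.X' s₀.Y a c (linear_rel h) ρ hcase hm1 (fun j => by
    obtain ⟨Ψ, i1, i2, σ, hσker, hσj, hσu, hσl⟩ := s₀.exists_place j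
    refine ⟨Ψ, i1, i2, σ, fun f hf => ?_, hσu, fun i hi => s₀.Y_const σ hσj hσl hi⟩
    obtain ⟨g, hg⟩ := hσker f hf
    exact ⟨g, Subtype.ext hg⟩)
  exact ⟨J, hJ, hker _ hJ0⟩

end Seed

end Pool.Agent.K4H83.LP
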