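import Pool.Agent.K4H83.LP.Laurent
import Pool.Agent.K4H83.LP.Core

/-! # Numerators of Laurent polynomials, and the intersection lemma -/

namespace Pool.Agent.K4H83.LP

open MvPolynomial

universe u v

section Strip

variable {R : Type u} [CommRing R] [IsDomain R] {n : ℕ}

lemma exists_strip (p : MvPolynomial (Fin n) R) (hp : p ≠ 0) :
    ∃ (a : Fin n → ℕ) (q : MvPolynomial (Fin n) R), (∀ j, ¬ X j ∣ q) ∧
      p = (∏ k, X k ^ a k) * q := by
  induction h : p.totalDegree using Nat.strong_induction_on generalizing p with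
  | _ d ih =>
    by_cases hX : ∃ j, X j ∣ p
    · obtain ⟨j, r, rfl⟩ := hX
      have hr : r ≠ 0 := right_ne_zero_of_mul hp
      have hd : r.totalDegree < d := by
        rw [← h, totalDegree_mul_of_isDomain (X_ne_zero j) hr, totalDegree_X]
        omega
      obtain ⟨a, q, hq, e⟩ := ih _ hd r hr rfl
      refine ⟨Function.update a j (a j + 1), q, hq, ?_⟩
      rw [e, ← mul_assoc]
      congr 1
      rw [← Finset.mul_prod_erase _ _ (Finset.mem_univ j),
        ← Finset.mul_prod_erase _ (fun k => X k ^ Function.update a j (a j + 1) k)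
          (Finset.mem_univ j), Function.update_self, ← mul_assoc]
      congr 1
      · rw [pow_succ, mul_comm]
      · refine Finset.prod_congr rfl fun k hk => ?_
        rw [Function.update_of_ne (Finset.ne_of_mem_erase hk)]
    · push Not at hX
      exact ⟨0, p, hX, by simp⟩

lemma strip_le {a b : Fin n → ℕ} {p q : MvPolynomial (Fin n) R}
    (hq : ∀ j, ¬ X j ∣ q)
    (h : (∏ k, X k ^ a k) * p = (∏ k, X k ^ b k) * q) (j : Fin n) : a j ≤ b j := by
  by_contra hlt
  push Not at hlt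
  obtain ⟨d, hd⟩ := Nat.exists_eq_add_of_lt hlt
  rw [← Finset.mul_prod_erase _ _ (Finset.mem_univ j),
    ← Finset.mul_prod_erase _ (fun k => X k ^ b k) (Finset.mem_univ j), hd] at h
  have h1 : X j ^ (d + 1) * (∏ k ∈ Finset.univ.erase j, X k ^ a k) * p
      = (∏ k ∈ Finset.univ.erase j, X k ^ b k) * q := by
    have hne : (X j : MvPolynomial (Fin n) R) ^ b j ≠ 0 := pow_ne_zero _ (X_ne_zero j)
    apply mul_left_cancel₀ hne
    rw [← mul_assoc (X j ^ b j) (∏ k ∈ Finset.univ.erase j, X k ^ b k) q, ← h]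
    ring
  have h2 : (X j : MvPolynomial (Fin n) R) ∣ (∏ k ∈ Finset.univ.erase j, X k ^ b k) * q := by
    rw [← h1]
    exact ⟨X j ^ d * (∏ k ∈ Finset.univ.erase j, X k ^ a k) * p, by ring⟩
  rcases (X_prime (i := j)).dvd_or_dvd h2 with h3 | h3
  · obtain ⟨k, hk, hk'⟩ := (X_prime (i := j)).exists_mem_finset_dvd h3
    have h4 := (X_prime (i := j)).dvd_of_dvd_pow hk'
    rw [X_dvd_X] at h4
    exact (Finset.ne_of_mem_erase hk) h4.symm
  · exact hq j h3

lemma strip_unique {a b : Fin n → ℕ} {p q : MvPolynomial (Fin n) R}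
    (hp : ∀ j, ¬ X j ∣ p) (hq : ∀ j, ¬ X j ∣ q)
    (h : (∏ k, X k ^ a k) * p = (∏ k, X k ^ b k) * q) : a = b ∧ p = q := by
  have hab : a = b := funext fun j => le_antisymm (strip_le hq h j) (strip_le hp h.symm j)
  refine ⟨hab, ?_⟩
  subst hab
  exact mul_left_cancel₀ (Finset.prod_ne_zero_iff.2 fun k _ => pow_ne_zero _ (X_ne_zero k)) h

/-- Cancel a monomial in a divisibility. -/
lemma dvd_of_dvd_monomial_mul {a : Fin n → ℕ} {p q : MvPolynomial (Fin n) R}
    (hp : ∀ j, ¬ X j ∣ p) (h : p ∣ (∏ k, X k ^ a k) * q) : p ∣ q := by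
  have e : (∏ k, X k ^ a k : MvPolynomial (Fin n) R)
      = monomial (Finsupp.equivFunOnFinite.symm a) 1 := by
    rw [monomial_eq, Finsupp.prod_fintype _ _ (fun _ => pow_zero _)]
    simp
  rw [e, dvd_monomial_mul_iff_exists] at h
  obtain ⟨m, r, _, hr, e2⟩ := h
  have hm : m = 0 := by
    ext j
    by_contra hj
    apply hp j
    rw [e2]
    refine dvd_mul_of_dvd_left ?_ _
    rw [X_dvd_monomial]
    exact Or.inr hj
  subst hm
  rw [e2]
  simpa using hr

end Strip

section Numer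

variable {R : Type u} {K : Type v} [CommRing R] [IsDomain R] [Field K] [Algebra R K] {n : ℕ}
  {y : Fin n → K} (hy : AlgebraicIndependent R y)

include hy

lemma exists_numer {f : K} (hf : f ∈ laurent R y) (hf0 : f ≠ 0) :
    ∃ (m : Fin n → ℤ) (p : MvPolynomial (Fin n) R), (∀ j, ¬ X j ∣ p) ∧
      f = (∏ k, y k ^ m k) * aeval y p := by
  obtain ⟨N, p, hp⟩ := (mem_laurent_iff (indep_ne_zero hy)).1 hf
  have hne : (∏ k, y k) ≠ 0 := Finset.prod_ne_zero_iff.2 fun k _ => indep_ne_zero hy k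
  have hp0 : p ≠ 0 := by
    rintro rfl
    rw [map_zero] at hp
    exact (mul_ne_zero hf0 (pow_ne_zero _ hne)) hp
  obtain ⟨a, q, hq, e⟩ := exists_strip p hp0
  refine ⟨fun k => (a k : ℤ) - N, q, hq, ?_⟩
  have h1 : (∏ k, y k ^ ((a k : ℤ) - N)) * (∏ k, y k) ^ N = ∏ k, y k ^ a k := by
    rw [← Finset.prod_pow, ← Finset.prod_mul_distrib]
    refine Finset.prod_congr rfl fun k _ => ?_
    rw [zpow_sub₀ (indep_ne_zero hy k), zpow_natCast, zpow_natCast,
      div_mul_cancel₀ _ (pow_ne_zero _ (indep_ne_zero hy k))]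
  apply mul_right_cancel₀ (pow_ne_zero N hne)
  rw [hp, e, map_mul, map_prod, mul_right_comm, h1]
  simp only [map_pow, aeval_X]

lemma numer_unique {m m' : Fin n → ℤ} {p q : MvPolynomial (Fin n) R}
    (hp : ∀ j, ¬ X j ∣ p) (hq : ∀ j, ¬ X j ∣ q)
    (h : (∏ k, y k ^ m k) * aeval y p = (∏ k, y k ^ m' k) * aeval y q) : m = m' ∧ p = q := by
  obtain ⟨N, hN⟩ : ∃ N : ℕ, ∀ k, 0 ≤ m k + N ∧ 0 ≤ m' k + N := by
    refine ⟨∑ k, ((m k).natAbs + (m' k).natAbs), fun k => ?_⟩
    have := Finset.single_le_sum (f := fun k => (m k).natAbs + (m' k).natAbs)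
      (fun _ _ => Nat.zero_le _) (Finset.mem_univ k)
    omega
  have key : ∀ (l : Fin n → ℤ) (r : MvPolynomial (Fin n) R), (∀ k, 0 ≤ l k + N) →
      aeval y ((∏ k, X k ^ (l k + N).toNat) * r) =
        (∏ k, y k) ^ N * ((∏ k, y k ^ l k) * aeval y r) := by
    intro l r hl
    rw [map_mul, map_prod, ← mul_assoc]
    congr 1
    rw [← Finset.prod_pow, ← Finset.prod_mul_distrib]
    refine Finset.prod_congr rfl fun k _ => ?_
    rw [map_pow, aeval_X, ← zpow_natCast, Int.toNat_of_nonneg (hl k),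
      zpow_add₀ (indep_ne_zero hy k), zpow_natCast, mul_comm]
  have h1 := aeval_inj hy (p := (∏ k, X k ^ (m k + N).toNat) * p)
    (q := (∏ k, X k ^ (m' k + N).toNat) * q) (by
      rw [key m p fun k => (hN k).1, key m' q fun k => (hN k).2, h])
  obtain ⟨h2, h3⟩ := strip_unique hp hq h1
  refine ⟨funext fun k => ?_, h3⟩
  have := congrFun h2 k
  have h4 := hN k
  omega

end Numer



section Inter

variable {R : Type u} {K : Type v} [CommRing R] [Field K] [Algebra R K] {n : ℕ}

/-- The ring generated by all `x_k`, the element `w` and the `x_l⁻¹` for `l ≠ j`. -/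
def polyRing (R : Type u) {K : Type v} [CommRing R] [Field K] [Algebra R K] {n : ℕ}
    (x : Fin n → K) (j : Fin n) (w : K) : Subalgebra R K :=
  Algebra.adjoin R (Set.range x ∪ {w} ∪ (fun l => (x l)⁻¹) '' {j}ᶜ)

lemma polyRing_le {x : Fin n → K} {j : Fin n} {w : K} {L : Subalgebra R K}
    (h1 : ∀ k, x k ∈ L) (h2 : w ∈ L) (h3 : ∀ k, k ≠ j → (x k)⁻¹ ∈ L) : polyRing R x j w ≤ L := by
  refine Algebra.adjoin_le ?_
  rintro z ((⟨k, rfl⟩ | hz) | ⟨k, hk, rfl⟩)
  · exact h1 k
  · rw [Set.mem_singleton_iff] at hz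
    rw [hz]; exact h2
  · exact h3 k hk

variable [IsDomain R] {x : Fin n → K} (hx : AlgebraicIndependent R x)

include hx

lemma mem_polyRing {F : MvPolynomial (Fin n) R} (hF : F ≠ 0) {j : Fin n}
    (hj : j ∉ F.vars) {f : K} (h1 : f ∈ laurent R x)
    (h2 : f ∈ laurent R (Function.update x j (aeval x F / x j))) :
    f ∈ polyRing R x j (aeval x F / x j) := by
  classical
  set w : K := aeval x F / x j with hw
  set B := polyRing R x j w with hB
  have hy : AlgebraicIndependent R (Function.update x j w) := indep_update hx hF hj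
  set A : Subalgebra R K := Algebra.adjoin R (x '' {j}ᶜ) with hA
  have hAx : ∀ k, k ≠ j → x k ∈ A := fun k hk => Algebra.subset_adjoin ⟨k, hk, rfl⟩
  have hxB : ∀ k, x k ∈ B := fun k => Algebra.subset_adjoin (Or.inl (Or.inl ⟨k, rfl⟩))
  have hwB : w ∈ B := Algebra.subset_adjoin (Or.inl (Or.inr rfl))
  have hxiB : ∀ k, k ≠ j → (x k)⁻¹ ∈ B := fun k hk => Algebra.subset_adjoin (Or.inr ⟨k, hk, rfl⟩)
  have hAB : A ≤ B := Algebra.adjoin_le (by rintro _ ⟨k, _, rfl⟩; exact hxB k)
  have hFA : aeval x F ∈ A := aeval_mem_of_vars fun k hk => hAx k fun e => hj (e ▸ hk)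
  let φ : MvPolynomial (Fin n) R →ₐ[R] Polynomial A :=
    aeval (fun k => if h : k = j then Polynomial.X else Polynomial.C ⟨x k, hAx k h⟩)
  have hφ : ∀ (t : K) (p : MvPolynomial (Fin n) R),
      Polynomial.aeval t (φ p) = aeval (Function.update x j t) p := by
    intro t p
    induction p using MvPolynomial.induction_on with
    | C a =>
      have : φ (C a) = Polynomial.C (algebraMap R A a) := by
        change φ (algebraMap R _ a) = _
        rw [AlgHom.commutes]
        rfl
      rw [this, Polynomial.aeval_C, aeval_C]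
      rfl
    | add p q hp hq => rw [map_add, map_add, map_add, hp, hq]
    | mul_X p k hp =>
      rw [map_mul, map_mul, map_mul, hp, aeval_X]
      congr 1
      by_cases hk : k = j
      · subst hk
        rw [dif_pos rfl, Polynomial.aeval_X, aeval_X, Function.update_self]
      · rw [dif_neg hk, Polynomial.aeval_C, aeval_X, Function.update_of_ne hk]
        rfl
  have htr : Transcendental A (x j) := hx.transcendental_adjoin (by simp)
  obtain ⟨N, p, hp⟩ := (mem_laurent_iff (indep_ne_zero hx)).1 h1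
  obtain ⟨M, q, hq⟩ := (mem_laurent_iff (indep_ne_zero hy)).1 h2
  set E : K := ∏ k ∈ Finset.univ.erase j, x k with hE
  have hEA : E ∈ A := Subalgebra.prod_mem _ fun k hk => hAx k (Finset.ne_of_mem_erase hk)
  have hE0 : E ≠ 0 := Finset.prod_ne_zero_iff.2 fun k _ => indep_ne_zero hx k
  have hEi : E⁻¹ ∈ B := by
    rw [hE, ← Finset.prod_inv_distrib]
    exact Subalgebra.prod_mem _ fun k hk => hxiB k (Finset.ne_of_mem_erase hk)
  have e1 : ∏ k, x k = x j * E := (Finset.mul_prod_erase _ _ (Finset.mem_univ j)).symm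
  have e2 : ∏ k, Function.update x j w k = w * E := by
    rw [← Finset.mul_prod_erase _ _ (Finset.mem_univ j), Function.update_self]
    congr 1
    exact Finset.prod_congr rfl fun k hk => Function.update_of_ne (Finset.ne_of_mem_erase hk) _ _
  rw [e1] at hp
  rw [e2] at hq
  have hFA0 : (⟨aeval x F, hFA⟩ : A) ≠ 0 := by
    intro h
    exact aeval_ne_zero hx hF (congrArg Subtype.val h)
  have hw' : algebraMap A K ⟨aeval x F, hFA⟩ / x j = w := rfl
  have k1 : f * E ^ (N + M) * x j ^ N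
      = Polynomial.aeval (x j) (φ p * Polynomial.C ((⟨E, hEA⟩ : A) ^ M)) := by
    rw [map_mul, hφ, Function.update_eq_self, ← hp, Polynomial.aeval_C, map_pow]
    have : algebraMap A K ⟨E, hEA⟩ = E := rfl
    rw [this]; ring
  have k2 : f * E ^ (N + M) * (algebraMap A K ⟨aeval x F, hFA⟩ / x j) ^ M
      = Polynomial.aeval (algebraMap A K ⟨aeval x F, hFA⟩ / x j)
        (φ q * Polynomial.C ((⟨E, hEA⟩ : A) ^ N)) := by
    rw [hw', map_mul, hφ, ← hq, Polynomial.aeval_C, map_pow]
    have : algebraMap A K ⟨E, hEA⟩ = E := rfl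
    rw [this]; ring
  obtain ⟨P₁, Q₁, h3⟩ := core_intersection htr (indep_ne_zero hx j) hFA0 N _ _ _ _ k1 k2
  have hmem : ∀ (t : K), t ∈ B → ∀ P : Polynomial A, Polynomial.aeval t P ∈ B := by
    intro t ht P
    rw [Polynomial.aeval_eq_sum_range]
    refine Subalgebra.sum_mem _ fun s _ => ?_
    rw [Algebra.smul_def]
    exact B.mul_mem (hAB (P.coeff s).2) (pow_mem ht _)
  have h4 : f * E ^ (N + M) ∈ B := by
    rw [h3]
    exact B.add_mem (hmem _ (hxB j) _) (hmem _ hwB _)
  have h5 : f = f * E ^ (N + M) * (E⁻¹) ^ (N + M) := by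
    rw [inv_pow, mul_assoc, mul_inv_cancel₀ (pow_ne_zero _ hE0), mul_one]
  rw [h5]
  exact B.mul_mem h4 (pow_mem hEi _)

end Inter

end Pool.Agent.K4H83.LP
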