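import Pool.Agent.K4H83.LP.Invariance

/-! # Reduction of the upper bound ring modulo a cluster variable -/

namespace Pool.Agent.K4H83.LP

open MvPolynomial

universe u v w

section Rel

variable {K S D : Type*} [Field K] [CommRing S] [CommRing D] [IsDomain D]
  {φ : S →+* K} {ev : S →+* D} {d : S}

/-- The relation `f = φ(p) / φ(d)^N`, `P = ev(p) / ev(d)^N`. -/
def Rel (φ : S →+* K) (ev : S →+* D) (d : S) (f : K) (P : D) : Prop :=
  ∃ (N : ℕ) (p : S), f * φ d ^ N = φ p ∧ P * ev d ^ N = ev p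

lemma Rel.unique (hφ : Function.Injective φ) (hd : ev d ≠ 0) {f : K} {P P' : D}
    (h : Rel φ ev d f P) (h' : Rel φ ev d f P') : P = P' := by
  obtain ⟨N, p, h1, h2⟩ := h
  obtain ⟨N', p', h1', h2'⟩ := h'
  have e : p * d ^ N' = p' * d ^ N := by
    apply hφ
    rw [map_mul, map_mul, map_pow, map_pow, ← h1, ← h1']; ring
  have e2 := congrArg ev e
  rw [map_mul, map_mul, map_pow, map_pow, ← h2, ← h2'] at e2
  apply mul_right_cancel₀ (pow_ne_zero (N + N') hd)
  rw [pow_add]
  linear_combination e2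

lemma Rel.map (p : S) : Rel φ ev d (φ p) (ev p) := ⟨0, p, by simp, by simp⟩

lemma Rel.add {f g : K} {P Q : D} (h : Rel φ ev d f P) (h' : Rel φ ev d g Q) :
    Rel φ ev d (f + g) (P + Q) := by
  obtain ⟨N, p, h1, h2⟩ := h
  obtain ⟨N', p', h1', h2'⟩ := h'
  refine ⟨N + N', p * d ^ N' + p' * d ^ N, ?_, ?_⟩
  · rw [map_add, map_mul, map_mul, map_pow, map_pow, ← h1, ← h1']; ring
  · rw [map_add, map_mul, map_mul, map_pow, map_pow, ← h2, ← h2']; ring

lemma Rel.mul {f g : K} {P Q : D} (h : Rel φ ev d f P) (h' : Rel φ ev d g Q) :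
    Rel φ ev d (f * g) (P * Q) := by
  obtain ⟨N, p, h1, h2⟩ := h
  obtain ⟨N', p', h1', h2'⟩ := h'
  refine ⟨N + N', p * p', ?_, ?_⟩
  · rw [map_mul, ← h1, ← h1']; ring
  · rw [map_mul, ← h2, ← h2']; ring

end Rel

namespace Seed

variable {R : Type u} {K : Type v} [CommRing R] [IsDomain R] [UniqueFactorizationMonoid R]
  [Field K] [Algebra R K] {n : ℕ}

lemma x_mem_upper (s : Seed R K n) (k : Fin n) : s.x k ∈ s.upper :=
  mem_upper.2 ⟨self_mem_laurent _ _, fun j => s.all_x_mem_flip j k⟩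

lemma val_mem_upper (s : Seed R K n) (k : Fin n) : s.val k ∈ s.upper :=
  aeval_mem_of_vars fun l _ => s.x_mem_upper l

lemma u_mem_upper (s : Seed R K n) (k : Fin n) : s.val k / s.x k ∈ s.upper := by
  refine mem_upper.2 ⟨?_, fun j => ?_⟩
  · rw [div_eq_mul_inv]
    exact Subalgebra.mul_mem _ (mem_upper.1 (s.val_mem_upper k)).1 (inv_mem_laurent _ _)
  · by_cases hj : j = k
    · rw [hj]; exact s.u_mem_flip k
    · rw [div_eq_mul_inv]
      exact Subalgebra.mul_mem _ ((mem_upper.1 (s.val_mem_upper k)).2 j)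
        (s.x_inv_mem_flip (Ne.symm hj))

lemma upper_le_polyRing (s : Seed R K n) (k : Fin n) :
    s.upper ≤ polyRing R s.x k (s.val k / s.x k) := fun _ hf =>
  mem_polyRing s.indep (s.irreducible k).ne_zero (s.notMem_vars k) (mem_upper.1 hf).1
    ((mem_upper.1 hf).2 k)

/-- If `f` is in the upper bound and divisible by `F_k` in the `k`-th flipped ring, then it is
divisible by `x_k` in the upper bound. -/
lemma div_x_mem_upper (s : Seed R K n) (k : Fin n) {f g : K} (hf : f ∈ s.upper)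
    (hg : g ∈ laurent R (s.flip k)) (h : f = s.val k * g) : f / s.x k ∈ s.upper := by
  have hf' := mem_upper.1 hf
  refine mem_upper.2 ⟨?_, fun j => ?_⟩
  · rw [div_eq_mul_inv]
    exact Subalgebra.mul_mem _ hf'.1 (inv_mem_laurent _ _)
  · by_cases hj : j = k
    · rw [hj, h, mul_comm, mul_div_assoc]
      exact Subalgebra.mul_mem _ hg (s.u_mem_flip k)
    · rw [div_eq_mul_inv]
      exact Subalgebra.mul_mem _ (hf'.2 j) (s.x_inv_mem_flip (Ne.symm hj))

theorem exists_place (s : Seed R K n) (k : Fin n) :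
    ∃ (Φ : Type u) (_ : Field Φ) (_ : Algebra R Φ) (ρ : s.upper →ₐ[R] Polynomial Φ),
      (∀ f : s.upper, ρ f = 0 → ∃ g : s.upper, (f : K) = s.x k * g) ∧
      ρ ⟨s.x k, s.x_mem_upper k⟩ = 0 ∧
      ρ ⟨s.val k / s.x k, s.u_mem_upper k⟩ = Polynomial.X ∧
      (∀ l, l ≠ k → ∃ c : Φ, c ≠ 0 ∧ ρ ⟨s.x l, s.x_mem_upper l⟩ = Polynomial.C c) := by
  classical
  let I : Ideal (MvPolynomial (Fin n) R) := Ideal.span {s.F k}
  have hI : I.IsPrime := (Ideal.span_singleton_prime (s.irreducible k).ne_zero).2 (s.prime k)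
  let Q := MvPolynomial (Fin n) R ⧸ I
  have : IsDomain Q := Ideal.Quotient.isDomain I
  let Φ := FractionRing Q
  let ev0 : MvPolynomial (Fin n) R →ₐ[R] Φ :=
    (IsScalarTower.toAlgHom R Q Φ).comp (Ideal.Quotient.mkₐ R I)
  have hev0 : ∀ p, ev0 p = 0 ↔ s.F k ∣ p := by
    intro p
    change algebraMap Q Φ (Ideal.Quotient.mk I p) = 0 ↔ _
    rw [map_eq_zero_iff _ (IsFractionRing.injective Q Φ), Ideal.Quotient.eq_zero_iff_mem,
      Ideal.mem_span_singleton]
  let ev : MvPolynomial (Fin n) R →ₐ[R] Polynomial Φ :=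
    aeval (fun l => if l = k then Polynomial.X else Polynomial.C (ev0 (X l)))
  have hevk : ev (X k) = Polynomial.X := by
    change aeval _ _ = _
    rw [aeval_X, if_pos rfl]
  have hevl : ∀ l, l ≠ k → ev (X l) = Polynomial.C (ev0 (X l)) := fun l hl => by
    change aeval _ _ = _
    rw [aeval_X, if_neg hl]
  -- kernel of `ev`
  have hker : ∀ p, ev p = 0 → s.F k ∣ p := by
    intro p hp
    have hcomp : ((Polynomial.aeval (ev0 (X k))).restrictScalars R).comp ev = ev0 := by
      apply MvPolynomial.algHom_ext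
      intro l
      rw [AlgHom.comp_apply]
      by_cases hl : l = k
      · rw [hl, hevk]
        simp
      · rw [hevl l hl]
        simp
    rw [← hev0, ← hcomp, AlgHom.comp_apply, hp, map_zero]
  have hCcomp : ∀ p : MvPolynomial (Fin n) R,
      aeval (fun l => Polynomial.C (ev0 (X l))) p = Polynomial.C (ev0 p) := by
    intro p
    have : (aeval (fun l => Polynomial.C (ev0 (X l))) : MvPolynomial (Fin n) R →ₐ[R] _)
        = (Polynomial.CAlgHom : Φ →ₐ[R] Polynomial Φ).comp ev0 := by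
      apply MvPolynomial.algHom_ext
      intro l
      rw [aeval_X]; rfl
    rw [this]; rfl
  have hevF : ev (s.F k) = 0 := by
    have e1 : ev (s.F k) = aeval (fun l => Polynomial.C (ev0 (X l))) (s.F k) := by
      change aeval _ _ = _
      rw [aeval_def, aeval_def]
      refine eval₂Hom_congr' rfl (fun i hi _ => ?_) rfl
      rw [if_neg]
      rintro rfl
      exact s.notMem_vars _ hi
    rw [e1, hCcomp, (hev0 _).2 dvd_rfl, Polynomial.C_0]
  have hX0 : ∀ l, ev0 (X l) ≠ 0 := fun l h => s.F_not_dvd_X k l ((hev0 _).1 h)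
  have hevX0 : ∀ l, ev (X l) ≠ 0 := fun l => by
    by_cases hl : l = k
    · rw [hl, hevk]; exact Polynomial.X_ne_zero
    · rw [hevl l hl]; exact Polynomial.C_ne_zero.2 (hX0 l)
  set d : MvPolynomial (Fin n) R := ∏ l, X l with hd
  have hevd : ev d ≠ 0 := by
    rw [hd, map_prod]
    exact Finset.prod_ne_zero_iff.2 fun l _ => hevX0 l
  let φ : MvPolynomial (Fin n) R →+* K := (aeval (s.flip k) : MvPolynomial (Fin n) R →ₐ[R] K)
  have hφX : ∀ l, φ (X l) = s.flip k l := fun l => aeval_X _ _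
  have hφ : Function.Injective φ := s.flip_indep k
  have hφd : φ d = ∏ l, s.flip k l := by
    rw [hd, map_prod]
    exact Finset.prod_congr rfl fun l _ => hφX l
  let evr : MvPolynomial (Fin n) R →+* Polynomial Φ := ev
  have hrx : ∀ l, l ≠ k → Rel φ evr d (s.x l) (Polynomial.C (ev0 (X l))) := fun l hl => by
    have := Rel.map (φ := φ) (ev := evr) (d := d) (X l)
    rw [hφX, s.flip_of_ne hl] at this
    have h2 : evr (X l) = Polynomial.C (ev0 (X l)) := hevl l hl
    rwa [h2] at this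
  have hrk : Rel φ evr d (s.x k) 0 := by
    refine ⟨1, s.F k * ∏ l ∈ Finset.univ.erase k, X l, ?_, ?_⟩
    · rw [pow_one, hφd, map_mul, map_prod, ← Finset.mul_prod_erase _ _ (Finset.mem_univ k),
        s.flip_self]
      have e1 : φ (s.F k) = s.val k := s.val_flip k
      have e2 : ∏ l ∈ Finset.univ.erase k, φ (X l) = ∏ l ∈ Finset.univ.erase k, s.flip k l :=
        Finset.prod_congr rfl fun l _ => hφX l
      rw [e1, e2, ← mul_assoc, mul_div_cancel₀ _ (s.x_ne k)]
    · have e1 : evr (s.F k) = 0 := hevF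
      rw [map_mul, e1, zero_mul, zero_mul]
  have hru : Rel φ evr d (s.val k / s.x k) Polynomial.X := by
    have := Rel.map (φ := φ) (ev := evr) (d := d) (X k)
    rw [hφX, s.flip_self] at this
    have h2 : evr (X k) = Polynomial.X := hevk
    rwa [h2] at this
  have hex : ∀ f ∈ polyRing R s.x k (s.val k / s.x k), ∃ P, Rel φ evr d f P := by
    intro f hf
    induction hf using Algebra.adjoin_induction with
    | mem z hz =>
      rcases hz with (⟨l, rfl⟩ | hz) | ⟨l, hl, rfl⟩
      · by_cases hl : l = k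
        · rw [hl]; exact ⟨_, hrk⟩
        · exact ⟨_, hrx l hl⟩
      · rw [Set.mem_singleton_iff] at hz
        rw [hz]; exact ⟨_, hru⟩
      · refine ⟨Polynomial.C (ev0 (X l))⁻¹, 1, ∏ m ∈ Finset.univ.erase l, X m, ?_, ?_⟩
        · rw [pow_one, hφd, ← Finset.mul_prod_erase _ _ (Finset.mem_univ l), s.flip_of_ne hl,
            inv_mul_cancel_left₀ (s.x_ne l), map_prod]
          exact Finset.prod_congr rfl fun m _ => (hφX m).symm
        · have e1 : evr d = evr (X l) * evr (∏ m ∈ Finset.univ.erase l, X m) := by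
            rw [← map_mul, Finset.mul_prod_erase _ _ (Finset.mem_univ l)]
          have h2 : evr (X l) = Polynomial.C (ev0 (X l)) := hevl l hl
          rw [pow_one, e1, h2, ← mul_assoc, ← Polynomial.C_mul, inv_mul_cancel₀ (hX0 l),
            Polynomial.C_1, one_mul]
    | algebraMap r =>
      refine ⟨evr (C r), ?_⟩
      have := Rel.map (φ := φ) (ev := evr) (d := d) (C r)
      have e : φ (C r) = algebraMap R K r := aeval_C _ _
      rwa [e] at this
    | add f g _ _ hf hg =>
      obtain ⟨P, hP⟩ := hf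
      obtain ⟨Q', hQ⟩ := hg
      exact ⟨_, hP.add hQ⟩
    | mul f g _ _ hf hg =>
      obtain ⟨P, hP⟩ := hf
      obtain ⟨Q', hQ⟩ := hg
      exact ⟨_, hP.mul hQ⟩
  have hex' : ∀ f : s.upper, ∃ P, Rel φ evr d (f : K) P := fun f =>
    hex _ (s.upper_le_polyRing k f.2)
  choose r hr using hex'
  have hru' : ∀ (f : s.upper) (P : Polynomial Φ), Rel φ evr d (f : K) P → r f = P := fun f P h =>
    (hr f).unique hφ hevd h
  let ρ : s.upper →ₐ[R] Polynomial Φ :=
    { toFun := r
      map_one' := hru' _ _ (by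
        have := Rel.map (φ := φ) (ev := evr) (d := d) 1
        rwa [map_one, map_one] at this)
      map_zero' := hru' _ _ (by
        have := Rel.map (φ := φ) (ev := evr) (d := d) 0
        rwa [map_zero, map_zero] at this)
      map_mul' := fun f g => hru' _ _ ((hr f).mul (hr g))
      map_add' := fun f g => hru' _ _ ((hr f).add (hr g))
      commutes' := fun t => hru' _ _ (by
        have := Rel.map (φ := φ) (ev := evr) (d := d) (C t)
        have e : φ (C t) = algebraMap R K t := aeval_C _ _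
        have e2 : evr (C t) = algebraMap R (Polynomial Φ) t := ev.commutes t
        rwa [e, e2] at this) }
  refine ⟨Φ, inferInstance, inferInstance, ρ, ?_, hru' _ _ hrk, hru' _ _ hru, fun l hl =>
    ⟨_, hX0 l, hru' _ _ (hrx l hl)⟩⟩
  intro f hf
  have h0 : Rel φ evr d (f : K) 0 := by
    have := hr f
    have e : r f = 0 := hf
    rwa [e] at this
  obtain ⟨N, p, h1, h2⟩ := h0
  rw [zero_mul] at h2
  obtain ⟨q, hq⟩ := hker p h2.symm
  have hφd0 : φ d ≠ 0 := by
    rw [hφd]
    exact Finset.prod_ne_zero_iff.2 fun l _ => indep_ne_zero (s.flip_indep k) l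
  have h3 : (f : K) = s.val k * (φ q * (φ d ^ N)⁻¹) := by
    have e1 : φ (s.F k) = s.val k := s.val_flip k
    rw [← mul_assoc, ← e1, ← map_mul, ← hq, ← h1, mul_assoc, mul_inv_cancel₀ (pow_ne_zero _ hφd0),
      mul_one]
  have h4 : φ q * (φ d ^ N)⁻¹ ∈ laurent R (s.flip k) := by
    refine Subalgebra.mul_mem _ (aeval_mem_laurent _ _) ?_
    rw [hφd, ← inv_pow, ← Finset.prod_inv_distrib]
    exact pow_mem (Subalgebra.prod_mem _ fun l _ => inv_mem_laurent _ l) _
  exact ⟨⟨_, s.div_x_mem_upper k f.2 h4 h3⟩, (mul_div_cancel₀ _ (s.x_ne k)).symm⟩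

end Seed

end Pool.Agent.K4H83.LP
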