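import Pool.Agent.K4H83.LP.Numer

/-! # Quotients of polynomials not involving one variable -/

namespace Pool.Agent.K4H83.LP

open MvPolynomial

universe u v

section Vars

variable {R : Type u} [CommRing R] [IsDomain R] {n : ℕ}

lemma mem_vars_mul {p q : MvPolynomial (Fin n) R} (hp : p ≠ 0) (hq : q ≠ 0) {i : Fin n} :
    i ∈ (p * q).vars ↔ i ∈ p.vars ∨ i ∈ q.vars := by
  rw [mem_vars_iff_degreeOf_ne_zero, mem_vars_iff_degreeOf_ne_zero, mem_vars_iff_degreeOf_ne_zero,
    degreeOf_mul_eq hp hq]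
  omega

lemma mem_vars_of_dvd {F p : MvPolynomial (Fin n) R} (h : F ∣ p) (hp : p ≠ 0) {i : Fin n}
    (hi : i ∈ F.vars) : i ∈ p.vars := by
  obtain ⟨q, rfl⟩ := h
  exact (mem_vars_mul (left_ne_zero_of_mul hp) (right_ne_zero_of_mul hp)).2 (Or.inl hi)

lemma notMem_vars_add {p q : MvPolynomial (Fin n) R} {i : Fin n} (hp : i ∉ p.vars)
    (hq : i ∉ q.vars) : i ∉ (p + q).vars := by
  classical
  intro h
  rcases Finset.mem_union.1 (vars_add_subset p q h) with h | h
  · exact hp h
  · exact hq h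

lemma notMem_vars_mul {p q : MvPolynomial (Fin n) R} {i : Fin n} (hp : i ∉ p.vars)
    (hq : i ∉ q.vars) : i ∉ (p * q).vars := by
  classical
  intro h
  rcases Finset.mem_union.1 (vars_mul p q h) with h | h
  · exact hp h
  · exact hq h

lemma X_not_dvd_of_notMem_vars {p : MvPolynomial (Fin n) R} {i : Fin n} (hp : p ≠ 0)
    (hi : i ∉ p.vars) : ¬ X i ∣ p := fun h => hi (mem_vars_of_dvd h hp (by simp [vars_X]))

end Vars

section

variable {R : Type u} {K : Type v} [CommRing R] [IsDomain R] [Field K] [Algebra R K] {n : ℕ}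
  {y : Fin n → K}

lemma not_dvdIn_of_vars (hy : AlgebraicIndependent R y) {F p : MvPolynomial (Fin n) R}
    (hF : Prime F) (hX : ∀ k, ¬ F ∣ X k) {i : Fin n} (hi : i ∈ F.vars) (hp : p ≠ 0)
    (hip : i ∉ p.vars) : ¬ DvdIn (laurent R y) (aeval y F) (aeval y p) := fun h =>
  hip (mem_vars_of_dvd (dvd_of_dvdIn hy hF hX h) hp hi)

/-- The quotients `B(y) / A(y)` with `A`, `B` polynomials not involving `X_i`. -/
def quotAlg (hy : AlgebraicIndependent R y) (i : Fin n) : Subalgebra R K where
  carrier := {g | ∃ A B : MvPolynomial (Fin n) R, i ∉ A.vars ∧ i ∉ B.vars ∧ A ≠ 0 ∧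
    g * aeval y A = aeval y B}
  mul_mem' := by
    rintro a b ⟨A, B, hA, hB, hA0, h⟩ ⟨A', B', hA', hB', hA0', h'⟩
    refine ⟨A * A', B * B', notMem_vars_mul hA hA', notMem_vars_mul hB hB', mul_ne_zero hA0 hA0', ?_⟩
    rw [map_mul, map_mul, ← h, ← h']; ring
  add_mem' := by
    rintro a b ⟨A, B, hA, hB, hA0, h⟩ ⟨A', B', hA', hB', hA0', h'⟩
    refine ⟨A * A', B * A' + B' * A, notMem_vars_mul hA hA',
      notMem_vars_add (notMem_vars_mul hB hA') (notMem_vars_mul hB' hA), mul_ne_zero hA0 hA0', ?_⟩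
    rw [map_add, map_mul, map_mul, map_mul, ← h, ← h']; ring
  algebraMap_mem' := fun r => ⟨1, C r, by simp, by simp, one_ne_zero, by simp⟩

lemma self_mem_quotAlg (hy : AlgebraicIndependent R y) {i k : Fin n} (h : k ≠ i) :
    y k ∈ quotAlg hy i :=
  ⟨1, X k, by simp, by simpa [vars_X] using h.symm, one_ne_zero, by simp⟩

lemma inv_mem_quotAlg (hy : AlgebraicIndependent R y) {i : Fin n} {g : K}
    (h : g ∈ quotAlg hy i) : g⁻¹ ∈ quotAlg hy i := by
  by_cases hg : g = 0
  · rw [hg, inv_zero]; exact (quotAlg hy i).zero_mem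
  obtain ⟨A, B, hA, hB, hA0, h⟩ := h
  have hB0 : B ≠ 0 := by
    rintro rfl
    rw [map_zero] at h
    exact mul_ne_zero hg (aeval_ne_zero hy hA0) h
  refine ⟨B, A, hB, hA, hB0, ?_⟩
  rw [← h, inv_mul_cancel_left₀ hg]

lemma zpow_mem_quotAlg (hy : AlgebraicIndependent R y) {i : Fin n} {g : K}
    (h : g ∈ quotAlg hy i) (m : ℤ) : g ^ m ∈ quotAlg hy i := by
  cases m with
  | ofNat m => simpa using pow_mem h m
  | negSucc m =>
    rw [zpow_negSucc]
    exact inv_mem_quotAlg hy (pow_mem h _)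

lemma transfer_quot (hy : AlgebraicIndependent R y) {y' : Fin n → K} (hy' : ∀ k, y' k ≠ 0)
    {i : Fin n} (hyy : ∀ k, k ≠ i → y' k = y k) {g : K} (hg : g ∈ laurent R y)
    (h : g ∈ quotAlg hy i) : g ∈ laurent R y' := by
  obtain ⟨A, B, hA, hB, hA0, h⟩ := h
  exact transfer hy hy' hyy hg hA hB hA0 h

/-- A polynomial involving `X_i`, not divisible by `X_i`, is not a Laurent monomial in `y_i` times
a quotient of polynomials not involving `y_i`. -/
lemma notQuot (hy : AlgebraicIndependent R y) {F : MvPolynomial (Fin n) R} {i : Fin n}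
    (hi : i ∈ F.vars) (hX : ¬ X i ∣ F) {κ : K} (hκ : κ ∈ quotAlg hy i) (e : ℤ)
    (h : aeval y F = κ * y i ^ e) : False := by
  obtain ⟨A, B, hA, hB, hA0, h1⟩ := hκ
  have hF0 : F ≠ 0 := by rintro rfl; exact hX (dvd_zero _)
  have hyi := indep_ne_zero hy i
  have hκ0 : κ ≠ 0 := by
    rintro rfl
    rw [zero_mul] at h
    exact aeval_ne_zero hy hF0 h
  have hB0 : B ≠ 0 := by
    rintro rfl
    rw [map_zero] at h1
    exact mul_ne_zero hκ0 (aeval_ne_zero hy hA0) h1
  rcases e with e | e
  · have h2 : F * A = B * X i ^ e := by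
      apply aeval_inj hy
      rw [map_mul, map_mul, map_pow, aeval_X, h, ← h1]
      simp only [Int.ofNat_eq_natCast, zpow_natCast]
      ring
    by_cases he : e = 0
    · subst he
      rw [pow_zero, mul_one] at h2
      exact hB (h2 ▸ (mem_vars_mul hF0 hA0).2 (Or.inl hi))
    · have h3 : X i ∣ F * A := by
        rw [h2]
        exact dvd_mul_of_dvd_right (dvd_pow_self _ he) _
      rcases (X_prime (i := i)).dvd_or_dvd h3 with h4 | h4
      · exact hX h4
      · exact X_not_dvd_of_notMem_vars hA0 hA h4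
  · have h2 : F * A * X i ^ (e + 1) = B := by
      apply aeval_inj hy
      rw [map_mul, map_mul, map_pow, aeval_X, h, ← h1, zpow_negSucc]
      field_simp
    exact X_not_dvd_of_notMem_vars hB0 hB (by
      rw [← h2]
      exact dvd_mul_of_dvd_right (dvd_pow_self _ (Nat.succ_ne_zero e)) _)

/-- Replacing `y_j` by `κ / y_j`, with `κ ≠ 0` a quotient of polynomials not involving `y_j`,
keeps algebraic independence. -/
lemma indep_update_quot (hy : AlgebraicIndependent R y) {j : Fin n} {κ : K} (hκ0 : κ ≠ 0)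
    (hκ : κ ∈ quotAlg hy j) : AlgebraicIndependent R (Function.update y j (κ / y j)) := by
  obtain ⟨A, B, hA, hB, hA0, h⟩ := hκ
  have h0 := (AlgebraicIndependent.iff_transcendental_adjoin_image j).1 hy
  rw [AlgebraicIndependent.iff_transcendental_adjoin_image j]
  have e1 : (fun k : {k // k ≠ j} => Function.update y j (κ / y j) k)
      = fun k : {k // k ≠ j} => y k := by
    funext k
    exact Function.update_of_ne k.2 _ _
  have e2 : Function.update y j (κ / y j) '' {j}ᶜ = y '' {j}ᶜ := by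
    apply Set.image_congr
    intro k hk
    exact Function.update_of_ne hk _ _
  rw [e1, e2, Function.update_self]
  refine ⟨h0.1, fun halg => h0.2 ?_⟩
  have hmem : ∀ p : MvPolynomial (Fin n) R, j ∉ p.vars →
      IsAlgebraic (Algebra.adjoin R (y '' {j}ᶜ)) (aeval y p) := fun p hp =>
    isAlgebraic_algebraMap (⟨aeval y p, aeval_mem_of_vars fun k hk =>
      Algebra.subset_adjoin ⟨k, fun e => hp (e ▸ hk), rfl⟩⟩ : Algebra.adjoin R (y '' {j}ᶜ))
  have hκa : IsAlgebraic (Algebra.adjoin R (y '' {j}ᶜ)) κ := by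
    have : κ = aeval y B * (aeval y A)⁻¹ := by
      rw [← h, mul_assoc, mul_inv_cancel₀ (aeval_ne_zero hy hA0), mul_one]
    rw [this]
    exact (hmem B hB).mul (hmem A hA).inv
  have : y j = κ * (κ / y j)⁻¹ := by
    rw [inv_div, mul_div_cancel₀ _ hκ0]
  rw [this]
  exact hκa.mul halg.inv

/-- Congruence of polynomial values. -/
lemma aeval_congr_mod_all {R : Type u} {K : Type v} [CommRing R] [Field K] [Algebra R K] {n : ℕ}
    {L : Subalgebra R K} {π : K} {z z' : Fin n → K} (p : MvPolynomial (Fin n) R)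
    (hz : ∀ k, z k ∈ L) (hz' : ∀ k, z' k ∈ L)
    (h : ∀ k, DvdIn L π (z k - z' k)) : DvdIn L π (aeval z p - aeval z' p) := by
  induction p using MvPolynomial.induction_on with
  | C a => simpa using dvdIn_zero L π
  | add p q hp hq =>
    rw [map_add, map_add, add_sub_add_comm]
    exact hp.add hq
  | mul_X p k hp =>
    rw [map_mul, map_mul, aeval_X, aeval_X]
    have : aeval z p * z k - aeval z' p * z' k
        = (aeval z p - aeval z' p) * z k + aeval z' p * (z k - z' k) := by ring
    rw [this]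
    exact (hp.mul_right (hz k)).add ((h k).mul_left (aeval_mem_of_vars fun k _ => hz' k))

/-- Congruence of polynomial values. -/
lemma aeval_congr_mod {R : Type u} {K : Type v} [CommRing R] [Field K] [Algebra R K] {n : ℕ}
    {L : Subalgebra R K} {π : K} {y y' : Fin n → K} (p : MvPolynomial (Fin n) R)
    (hy : ∀ k ∈ p.vars, y k ∈ L) (hy' : ∀ k ∈ p.vars, y' k ∈ L)
    (h : ∀ k ∈ p.vars, DvdIn L π (y k - y' k)) : DvdIn L π (aeval y p - aeval y' p) := by
  classical
  let z : Fin n → K := fun k => if k ∈ p.vars then y k else 0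
  let z' : Fin n → K := fun k => if k ∈ p.vars then y' k else 0
  have e : aeval y p = aeval z p := aeval_congr_vars fun k hk => (if_pos hk).symm
  have e' : aeval y' p = aeval z' p := aeval_congr_vars fun k hk => (if_pos hk).symm
  rw [e, e']
  refine aeval_congr_mod_all p (fun k => ?_) (fun k => ?_) (fun k => ?_)
  · by_cases hk : k ∈ p.vars
    · simpa [z, hk] using hy k hk
    · simp [z, hk]
  · by_cases hk : k ∈ p.vars
    · simpa [z', hk] using hy' k hk
    · simp [z', hk]
  · by_cases hk : k ∈ p.vars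
    · simpa [z, z', hk] using h k hk
    · simpa [z, z', hk] using dvdIn_zero L π

lemma units_inv_map {R : Type u} {K : Type v} [CommRing R] [Field K] [Algebra R K] (w : Rˣ) :
    (algebraMap R K (w : R))⁻¹ = algebraMap R K ((w⁻¹ : Rˣ) : R) := by
  apply inv_eq_of_mul_eq_one_right
  rw [← map_mul, Units.mul_inv, map_one]

lemma units_map_ne_zero {R : Type u} {K : Type v} [CommRing R] [Field K] [Algebra R K] (w : Rˣ) :
    algebraMap R K (w : R) ≠ 0 := by
  intro h
  have : algebraMap R K ((w : R) * ((w⁻¹ : Rˣ) : R)) = 0 := by rw [map_mul, h, zero_mul]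
  rw [Units.mul_inv, map_one] at this
  exact one_ne_zero this

lemma laurent_eq_of_units {R : Type u} {K : Type v} [CommRing R] [Field K] [Algebra R K] {n : ℕ}
    {y y' : Fin n → K} (h : ∀ k, ∃ w : Rˣ, y' k = algebraMap R K (w : R) * y k) :
    laurent R y' = laurent R y := by
  have key : ∀ {y y' : Fin n → K}, (∀ k, ∃ w : Rˣ, y' k = algebraMap R K (w : R) * y k) →
      laurent R y' ≤ laurent R y := by
    intro y y' h
    refine laurent_le (fun k => ?_) (fun k => ?_)
    · obtain ⟨w, hw⟩ := h k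
      rw [hw]
      exact (laurent R y).mul_mem ((laurent R y).algebraMap_mem _) (self_mem_laurent y k)
    · obtain ⟨w, hw⟩ := h k
      rw [hw, mul_inv, units_inv_map]
      exact (laurent R y).mul_mem ((laurent R y).algebraMap_mem _) (inv_mem_laurent y k)
  refine le_antisymm (key h) (key fun k => ?_)
  obtain ⟨w, hw⟩ := h k
  refine ⟨w⁻¹, ?_⟩
  rw [hw, ← mul_assoc, ← map_mul, Units.inv_mul, map_one, one_mul]

end

end Pool.Agent.K4H83.LP
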