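import Pool.Agent.K4H83.LP.Quot

/-! # Basic facts on seeds -/

namespace Pool.Agent.K4H83.LP

open MvPolynomial

universe u v

section General

variable {R : Type u} {K : Type v} [CommRing R] [Field K] [Algebra R K] {n : ℕ}

lemma prod_zpow_mem {L : Subalgebra R K} {x : Fin n → K} {a : Fin n → ℤ}
    (h : ∀ k, a k ≠ 0 → x k ∈ L ∧ (x k)⁻¹ ∈ L) :
    (∏ k, x k ^ a k) ∈ L ∧ (∏ k, x k ^ a k)⁻¹ ∈ L := by
  have key : ∀ (z : K) (m : ℤ), (m ≠ 0 → z ∈ L ∧ z⁻¹ ∈ L) → z ^ m ∈ L ∧ (z ^ m)⁻¹ ∈ L := by
    intro z m hz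
    by_cases hm : m = 0
    · subst hm; simp
    · obtain ⟨h1, h2⟩ := hz hm
      cases m with
      | ofNat m =>
        refine ⟨by simpa using pow_mem h1 m, ?_⟩
        rw [Int.ofNat_eq_natCast, zpow_natCast, ← inv_pow]
        exact pow_mem h2 _
      | negSucc m =>
        refine ⟨?_, ?_⟩
        · rw [zpow_negSucc, ← inv_pow]
          exact pow_mem h2 _
        · rw [zpow_negSucc, inv_inv]
          exact pow_mem h1 _
  refine ⟨Subalgebra.prod_mem _ fun k _ => (key _ _ (h k)).1, ?_⟩
  rw [← Finset.prod_inv_distrib]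
  exact Subalgebra.prod_mem _ fun k _ => (key _ _ (h k)).2

lemma exists_pow_mul_mem {x : Fin n → K} (hx : ∀ k, x k ≠ 0) {j : Fin n} {π : K}
    (hπ0 : π ≠ 0) (hπ : π ∈ laurent R (Function.update x j (π / x j))) {f : K}
    (hf : f ∈ laurent R x) : ∃ N : ℕ, π ^ N * f ∈ laurent R (Function.update x j (π / x j)) := by
  set L := laurent R (Function.update x j (π / x j)) with hL
  have h1 : ∀ k, k ≠ j → x k ∈ L := fun k hk => by
    have := self_mem_laurent (R := R) (Function.update x j (π / x j)) k
    rwa [Function.update_of_ne hk] at this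
  have h2 : ∀ k, k ≠ j → (x k)⁻¹ ∈ L := fun k hk => by
    have := inv_mem_laurent (R := R) (Function.update x j (π / x j)) k
    rwa [Function.update_of_ne hk] at this
  have h3 : π / x j ∈ L := by
    have := self_mem_laurent (R := R) (Function.update x j (π / x j)) j
    rwa [Function.update_self] at this
  have h4 : x j ∈ L := by
    have := inv_mem_laurent (R := R) (Function.update x j (π / x j)) j
    rw [Function.update_self] at this
    have e : x j = π * (π / x j)⁻¹ := by
      rw [inv_div, mul_div_cancel₀ _ hπ0]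
    rw [e]
    exact L.mul_mem hπ this
  obtain ⟨N, p, hp⟩ := (mem_laurent_iff hx).1 hf
  refine ⟨N, ?_⟩
  have hp' : aeval x p ∈ L := aeval_mem_of_vars fun k _ => by
    by_cases hk : k = j
    · rw [hk]; exact h4
    · exact h1 k hk
  set E : K := ∏ k ∈ Finset.univ.erase j, x k with hE
  have hE0 : E ≠ 0 := Finset.prod_ne_zero_iff.2 fun k _ => hx k
  have hEi : E⁻¹ ∈ L := by
    rw [hE, ← Finset.prod_inv_distrib]
    exact Subalgebra.prod_mem _ fun k hk => h2 k (Finset.ne_of_mem_erase hk)
  have e1 : ∏ k, x k = x j * E := (Finset.mul_prod_erase _ _ (Finset.mem_univ j)).symm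
  have e2 : π ^ N * f = aeval x p * (π / x j * E⁻¹) ^ N := by
    rw [← hp, e1, mul_assoc, ← mul_pow]
    have : x j * E * (π / x j * E⁻¹) = π := by
      field_simp [hx j]
    rw [this, mul_comm]
  rw [e2]
  exact L.mul_mem hp' (pow_mem (L.mul_mem h3 hEi) _)

lemma aeval_mem_of_vars' {S : Type*} [CommRing S] [Algebra R S] {L : Subalgebra R S}
    {y : Fin n → S} {p : MvPolynomial (Fin n) R}
    (h : ∀ k ∈ p.vars, y k ∈ L) : aeval y p ∈ L := by
  rw [aeval_def, eval₂_eq]
  refine Subalgebra.sum_mem _ fun s hs => Subalgebra.mul_mem _ (Subalgebra.algebraMap_mem _ _) ?_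
  refine Subalgebra.prod_mem _ fun k hk => pow_mem (h k ?_) _
  exact (mem_vars_iff_mem_support k).2 ⟨s, hs, hk⟩

lemma notMem_vars_aeval {f : Fin n → MvPolynomial (Fin n) R} {p : MvPolynomial (Fin n) R}
    {l : Fin n} (h : ∀ k ∈ p.vars, l ∉ (f k).vars) : l ∉ (aeval f p).vars := by
  have h1 : aeval f p ∈ supported R ({l}ᶜ : Set (Fin n)) := by
    apply aeval_mem_of_vars'
    intro k hk
    rw [mem_supported]
    intro m hm hml
    rw [Set.mem_singleton_iff] at hml
    subst hml
    exact h k hk hm
  rw [mem_supported] at h1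
  intro h2
  exact h1 h2 rfl

lemma X_dvd_sub_restrict (j : Fin n) (p : MvPolynomial (Fin n) R) :
    X j ∣ p - aeval (Function.update X j 0) p := by
  induction p using MvPolynomial.induction_on with
  | C a => simp
  | add p q hp hq =>
    rw [map_add, add_sub_add_comm]
    exact dvd_add hp hq
  | mul_X p k hp =>
    rw [map_mul, aeval_X]
    by_cases hk : k = j
    · subst hk
      rw [Function.update_self, mul_zero, sub_zero]
      exact dvd_mul_left _ _
    · rw [Function.update_of_ne hk, ← sub_mul]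
      exact dvd_mul_of_dvd_left hp _

end General

namespace Seed

section

variable {R : Type u} {K : Type v} [CommRing R] [IsDomain R]
  [Field K] [Algebra R K] {n : ℕ} (s : Seed R K n)

lemma indep : AlgebraicIndependent R s.x := s.basis.1

lemma x_ne (k : Fin n) : s.x k ≠ 0 := indep_ne_zero s.indep k

lemma val_ne (j : Fin n) : s.val j ≠ 0 := aeval_ne_zero s.indep (s.irreducible j).ne_zero

lemma F_not_dvd_X (j k : Fin n) : ¬ s.F j ∣ X k := fun h =>
  s.not_dvd j k ((s.irreducible j).dvd_symm (X_prime (i := k)).irreducible h)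

lemma flip_indep (j : Fin n) : AlgebraicIndependent R (s.flip j) :=
  indep_update s.indep (s.irreducible j).ne_zero (s.notMem_vars j)

lemma flip_self (j : Fin n) : s.flip j j = s.val j / s.x j := Function.update_self _ _ _

lemma flip_of_ne {j k : Fin n} (h : k ≠ j) : s.flip j k = s.x k := Function.update_of_ne h _ _

lemma val_flip (j : Fin n) : aeval (s.flip j) (s.F j) = s.val j :=
  aeval_congr_vars fun k hk => s.flip_of_ne fun e => s.notMem_vars j (e ▸ hk)

lemma x_mem_flip {j k : Fin n} (h : k ≠ j) : s.x k ∈ laurent R (s.flip j) := by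
  rw [← s.flip_of_ne h]; exact self_mem_laurent _ k

lemma x_inv_mem_flip {j k : Fin n} (h : k ≠ j) : (s.x k)⁻¹ ∈ laurent R (s.flip j) := by
  rw [← s.flip_of_ne h]; exact inv_mem_laurent _ k

lemma val_mem_flip (j : Fin n) : s.val j ∈ laurent R (s.flip j) := by
  rw [← s.val_flip j]; exact aeval_mem_laurent _ _

lemma u_mem_flip (j : Fin n) : s.val j / s.x j ∈ laurent R (s.flip j) := by
  rw [← s.flip_self j]; exact self_mem_laurent _ j

lemma u_inv_mem_flip (j : Fin n) : (s.val j / s.x j)⁻¹ ∈ laurent R (s.flip j) := by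
  rw [← s.flip_self j]; exact inv_mem_laurent _ j

lemma x_eq (j : Fin n) : s.x j = s.val j * (s.val j / s.x j)⁻¹ := by
  rw [inv_div, mul_div_cancel₀ _ (s.val_ne j)]

lemma dvdIn_x (j : Fin n) : DvdIn (laurent R (s.flip j)) (s.val j) (s.x j) :=
  ⟨_, s.u_inv_mem_flip j, s.x_eq j⟩

lemma x_self_mem_flip (j : Fin n) : s.x j ∈ laurent R (s.flip j) := by
  rw [s.x_eq j]
  exact Subalgebra.mul_mem _ (s.val_mem_flip j) (s.u_inv_mem_flip j)

lemma all_x_mem_flip (j k : Fin n) : s.x k ∈ laurent R (s.flip j) := by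
  by_cases h : k = j
  · rw [h]; exact s.x_self_mem_flip j
  · exact s.x_mem_flip h

/-- The restriction polynomial. -/
lemma restrict_notMem_self (i j : Fin n) : j ∉ (s.restrict i j).vars := by
  refine notMem_vars_aeval fun k _ => ?_
  by_cases hk : k = j
  · subst hk; simp
  · rw [Function.update_of_ne hk, vars_X]
    simpa using Ne.symm hk

lemma restrict_notMem (i j : Fin n) : i ∉ (s.restrict i j).vars := by
  refine notMem_vars_aeval fun k hk => ?_
  by_cases hkj : k = j
  · subst hkj; simp
  · rw [Function.update_of_ne hkj, vars_X]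
    have : k ≠ i := fun e => s.notMem_vars i (e ▸ hk)
    simpa using Ne.symm this

lemma restrict_ne_zero (i j : Fin n) : s.restrict i j ≠ 0 := by
  intro h
  apply s.not_dvd i j
  have := X_dvd_sub_restrict j (s.F i)
  rw [show aeval (Function.update X j 0) (s.F i) = s.restrict i j from rfl, h, sub_zero] at this
  exact this

lemma aeval_restrict {R : Type u} {K : Type v} [CommRing R]
    [Field K] [Algebra R K] {n : ℕ} (s : Seed R K n) (i j : Fin n) (y : Fin n → K) :
    aeval y (s.restrict i j) = aeval (Function.update y j 0) (s.F i) := by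
  rw [Seed.restrict]
  have : (aeval y).comp (aeval (Function.update X j 0) : MvPolynomial (Fin n) R →ₐ[R] _)
      = aeval (Function.update y j 0) := by
    apply MvPolynomial.algHom_ext
    intro k
    rw [AlgHom.comp_apply, aeval_X, aeval_X]
    by_cases hk : k = j
    · subst hk; simp
    · rw [Function.update_of_ne hk, Function.update_of_ne hk, aeval_X]
  exact DFunLike.congr_fun this (s.F i)

lemma sub_restrict_dvdIn {L : Subalgebra R K} {π : K} {i j : Fin n} {y : Fin n → K}
    (hy : ∀ k ∈ (s.F i).vars, y k ∈ L) (hj : DvdIn L π (y j)) :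
    DvdIn L π (aeval y (s.F i) - aeval y (s.restrict i j)) := by
  rw [aeval_restrict]
  refine aeval_congr_mod _ hy (fun k hk => ?_) (fun k hk => ?_)
  · by_cases hkj : k = j
    · subst hkj; simp
    · rw [Function.update_of_ne hkj]; exact hy k hk
  · by_cases hkj : k = j
    · subst hkj; simpa using hj
    · rw [Function.update_of_ne hkj, sub_self]; exact dvdIn_zero _ _

/-- Exponents vanish where the other exchange polynomial involves `x_i`; the value of
`F̂_i|_{x_j ← 0}`. -/
lemma hatAt_zero {i j : Fin n} {a : Fin n → ℤ} (haj : a j = 0) :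
    s.hatAt i a (Function.update s.x j 0) =
      (∏ k, s.x k ^ a k) * aeval s.x (s.restrict i j) := by
  rw [aeval_restrict, Seed.hatAt]
  congr 1
  refine Finset.prod_congr rfl fun k _ => ?_
  by_cases hk : k = j
  · subst hk; rw [haj, zpow_zero, zpow_zero]
  · rw [Function.update_of_ne hk]

lemma hat_ne {i : Fin n} (a : Fin n → ℤ) : s.hatAt i a s.x ≠ 0 :=
  mul_ne_zero (Finset.prod_ne_zero_iff.2 fun k _ => zpow_ne_zero _ (s.x_ne k)) (s.val_ne i)

end

section

variable {R : Type u} {K : Type v} [CommRing R] [IsDomain R] [UniqueFactorizationMonoid R]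
  [Field K] [Algebra R K] {n : ℕ} (s : Seed R K n)

lemma prime (j : Fin n) : Prime (s.F j) :=
  UniqueFactorizationMonoid.irreducible_iff_prime.1 (s.irreducible j)

lemma primeIn_flip (j : Fin n) : PrimeIn (laurent R (s.flip j)) (s.val j) := by
  rw [← s.val_flip j]
  exact primeIn_laurent (s.flip_indep j) (s.prime j) (s.F_not_dvd_X j)

/-- A nonzero polynomial value not involving a variable that `F_j` involves, nor `X_j`, is not
divisible by `F_j` in the flipped Laurent ring. -/
lemma not_dvdIn_flip {i j : Fin n} (hi : i ∈ (s.F j).vars) {p : MvPolynomial (Fin n) R}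
    (hp : p ≠ 0) (hip : i ∉ p.vars) (hjp : j ∉ p.vars) :
    ¬ DvdIn (laurent R (s.flip j)) (s.val j) (aeval s.x p) := by
  have e : aeval s.x p = aeval (s.flip j) p :=
    aeval_congr_vars fun k hk => (s.flip_of_ne fun (e' : k = j) => hjp (e' ▸ hk)).symm
  rw [e, ← s.val_flip j]
  exact not_dvdIn_of_vars (s.flip_indep j) (s.prime j) (s.F_not_dvd_X j) hi hp hip

lemma hatExp_zero {i j : Fin n} {a : Fin n → ℤ} (ha : s.IsHatExponent i a)
    (hji : j ≠ i) (hi : i ∈ (s.F j).vars) : a j = 0 := by
  by_contra hne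
  have hlt : a j < 0 := lt_of_le_of_ne (ha.nonpos j) hne
  set L := laurent R (s.flip j) with hL
  have hx : ∀ k, k ≠ j → s.x k ∈ L ∧ (s.x k)⁻¹ ∈ L := fun k hk =>
    ⟨s.x_mem_flip hk, s.x_inv_mem_flip hk⟩
  -- the monomial away from `j`
  have hM := prod_zpow_mem (L := L) (x := s.x) (a := Function.update a j 0) (fun k hk => by
    have : k ≠ j := by
      rintro rfl
      rw [Function.update_self] at hk
      exact hk rfl
    exact hx k this)
  set M : K := ∏ k, s.x k ^ (Function.update a j 0) k with hMdef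
  have hM0 : M ≠ 0 := Finset.prod_ne_zero_iff.2 fun k _ => zpow_ne_zero _ (s.x_ne k)
  have e1 : s.hatAt i a s.x = M * s.x j ^ a j * s.val i := by
    rw [Seed.hatAt]
    congr 1
    rw [hMdef, ← Finset.mul_prod_erase _ _ (Finset.mem_univ j),
      ← Finset.mul_prod_erase _ (fun k => s.x k ^ (Function.update a j 0) k) (Finset.mem_univ j),
      Function.update_self, zpow_zero, one_mul, mul_comm]
    congr 1
    refine Finset.prod_congr rfl fun k hk => ?_
    rw [Function.update_of_ne (Finset.ne_of_mem_erase hk)]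
  obtain ⟨m, hm⟩ : ∃ m : ℕ, a j = -((m : ℤ) + 1) := ⟨(-a j - 1).toNat, by omega⟩
  have h1 : DvdIn L (s.val j) (s.val i) := by
    have h2 : s.val i = M⁻¹ * (s.hatAt i a s.x * s.x j ^ m) * s.x j := by
      rw [e1, hm, zpow_neg, zpow_add₀ (s.x_ne j), zpow_natCast, zpow_one]
      have := s.x_ne j
      field_simp
    rw [h2]
    exact (s.dvdIn_x j).mul_left (L.mul_mem hM.2 (L.mul_mem (ha.mem j hji)
      (pow_mem (s.x_self_mem_flip j) _)))
  have h3 : DvdIn L (s.val j) (aeval s.x (s.restrict i j)) := by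
    have h4 := s.sub_restrict_dvdIn (L := L) (π := s.val j) (i := i) (j := j) (y := s.x)
      (fun k _ => s.all_x_mem_flip j k) (s.dvdIn_x j)
    have h5 := h1.sub h4
    rwa [show s.val i - (aeval s.x (s.F i) - aeval s.x (s.restrict i j))
      = aeval s.x (s.restrict i j) by rw [Seed.val]; ring] at h5
  exact s.not_dvdIn_flip hi (s.restrict_ne_zero i j) (s.restrict_notMem i j)
    (s.restrict_notMem_self i j) h3

end

end Seed

end Pool.Agent.K4H83.LP
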